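import Pool.Agent.W5h59.Bu.C5

set_option autoImplicit false
set_option linter.all false

namespace Pool.Agent.W5h59.Bu

universe u

variable {G : Type u} [Group G]

/-- the elements `z a b c`, ... commute with the conjugates of `a` under involutions -/
theorem Z5 (H : E3 G) {a b c g : G} (ha : a * a = 1) (hb : b * b = 1) (hc : c * c = 1)
    (hg : g * g = 1) : Commute (z a b c) (g * a * g) ∧ Commute (z b a c) (g * a * g) ∧
    Commute (z c a b) (g * a * g) :=
  ⟨(C1 H ha (ic ha hg) (co_cj H ha hg) hb hc).2, C5 H ha (ic ha hg) (co_cj H ha hg) hb hc⟩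

theorem stepA_aux (H : E3 G) {a t u v : G} (ha : a * a = 1) (ht : t * t = 1) (hu : u * u = 1)
    (hv : v * v = 1) : Commute (k a t) (v * k (k a u) t * v) := by
  have ie := ik H ha ht
  have ix := ik H ha hu
  have iw := ik H ht hv
  have iX := ik H ix ht
  -- 1
  have s1 : Commute (k a t) (k (k v (k a u)) t) := by
    have e : z t a (k (k a u) v) = 1 := (C4 H ha ix (kl H ha hu).symm hv ht).2.2
    have := co_one (ik H ht ha) (ik H ht (ik H ix hv)) e
    rwa [k_swap H ht ha, k_swap H ht (ik H ix hv), k_swap H ix hv] at this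
  -- 2
  have s2 : Commute (k a t) (k (k t v) (k a u)) := by
    have W := hw H ix iw ie
    have e1 : k (k t v) (k a t) = z t v a := by unfold z; rw [k_swap H ht ha]
    have e2' : k (k a t) (k a u) = z a t u := rfl
    have c1 : Commute (z t v a) (k a u) := by
      rw [k_eq ha]
      have := (Z5 H ha ht hv hu).2.1
      rw [z_swap H ht ha hv] at this
      exact (z3 H ht hv ha).mul_right this
    have c2 : Commute (z a t u) (k t v) := by
      rw [k_eq ht]
      exact (z2 H ha ht hu).mul_right (Z5 H ht ha hu hv).2.1
    rw [e1, e2', k_one (iz H ht hv ha) ix c1, k_one (iz H ha ht hu) iw c2, mul_one, mul_one] at W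
    have := co_one (ik H ix iw) ie W
    rw [k_swap H iw ix]
    exact this.symm
  -- 4
  have s4 : Commute (k a t) (k (k (k a u) t) v) := by
    have W := hw H ix ht hv
    have e : k (k (k a u) t) v = (k (k t v) (k a u) * k (k v (k a u)) t)⁻¹ := by
      rw [eq_inv_iff_mul_eq_one, ← mul_assoc]; exact W
    rw [e]
    exact (s2.mul_right s1).inv_right
  -- 5
  have s5 : Commute (k a t) (k (k a u) t) := by
    have c1 : Commute (k (k a u) t) t := kr H ix ht
    have e : a * k (k a u) t * a = k (k a u) t * z a t u := by
      rw [cj_eq iX, P1 H ix ha ht (kl H ha hu)]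
      rfl
    have c2 : Commute (a * k (k a u) t * a) t := by
      rw [e]; exact c1.mul_left (z2 H ha ht hu)
    have c3 : Commute (k (k a u) t) (a * t * a) := by
      have := cj_co ha c2
      rwa [show a * (a * k (k a u) t * a) * a = k (k a u) t by
        simp only [mul_assoc, cc ha, ha, mul_one]] at this
    have : k a t = a * t * a * t := by simp only [k, mul_assoc]
    rw [this]
    exact (c3.mul_right c1).symm
  rw [cj_eq iX]
  exact s5.mul_right s4

/-- commutators of involutions are strong -/
theorem stepA (H : E3 G) {a t u v : G} (ha : a * a = 1) (ht : t * t = 1) (hu : u * u = 1)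
    (hv : v * v = 1) : z (k a t) u v = 1 := by
  have ie := ik H ha ht
  have W := hw H ha ht hu
  have e : k (k a t) u = (k (k t u) a * k (k u a) t)⁻¹ := by
    rw [eq_inv_iff_mul_eq_one, ← mul_assoc]; exact W
  have s1 := stepA_aux H ha ht hu hv
  have s2 := stepA_aux H ht ha hu hv
  rw [k_swap H ht ha] at s2
  rw [k_swap H ha hu] at s1
  have s3 : Commute (k a t) (v * k (k a t) u * v) := by
    rw [mul_inv_rev, iinv (ik H (ik H ht hu) ha), iinv (ik H (ik H hu ha) ht)] at e
    have : v * k (k a t) u * v = (v * k (k u a) t * v) * (v * k (k t u) a * v) := by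
      rw [e]
      simp only [mul_assoc, cc hv]
    rw [this]
    exact s1.mul_right s2
  unfold z
  apply k_one (ik H ie hu) (ik H ie hv)
  rw [k_eq (x := k a t) (y := v) ie]
  refine (kl H ie hu).mul_right ?_
  have := cj_co hv s3
  rw [show v * (v * k (k a t) u * v) * v = k (k a t) u by
    simp only [mul_assoc, cc hv, hv, mul_one]] at this
  exact this.symm

end Pool.Agent.W5h59.Bu
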