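import Mathlib

set_option autoImplicit false
set_option linter.all false

/-!
# Groups in which the product of any three involutions has order dividing four: basic identities

`k x y = (x y) ^ 2` is the commutator of the involutions `x`, `y`.
-/

namespace Pool.Agent.W5h59.Bu

universe u

variable {G : Type u} [Group G]

/-- the square of the product; for involutions, this is the commutator -/
def k (x y : G) : G := x * y * (x * y)

/-- the condition on the group -/
def E3 (G : Type u) [Group G] : Prop := ∀ x y z : G, x * x = 1 → y * y = 1 → z * z = 1 →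
  (x * y * z) * (x * y * z) * ((x * y * z) * (x * y * z)) = 1

theorem cc {x : G} (hx : x * x = 1) (t : G) : x * (x * t) = t := by
  rw [← mul_assoc, hx, one_mul]

theorem iinv {x : G} (hx : x * x = 1) : x⁻¹ = x := inv_eq_of_mul_eq_one_left hx

theorem e2 (H : E3 G) {x y : G} (hx : x * x = 1) (hy : y * y = 1) :
    x * y * (x * y) * (x * y * (x * y)) = 1 := by
  simpa using H x y 1 hx hy (one_mul 1)

theorem ik (H : E3 G) {x y : G} (hx : x * x = 1) (hy : y * y = 1) : k x y * k x y = 1 := e2 H hx hy

theorem ic {x g : G} (hx : x * x = 1) (hg : g * g = 1) : g * x * g * (g * x * g) = 1 := by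
  simp only [mul_assoc, cc hg, cc hx, hg]

theorem im {x y : G} (hx : x * x = 1) (hy : y * y = 1) (h : Commute x y) : x * y * (x * y) = 1 := by
  rw [show x * y * (x * y) = x * (y * x) * y by simp only [mul_assoc], ← h.eq]
  simp only [mul_assoc, cc hx, hy]

/-- a product of two involutions is an involution only if they commute -/
theorem co_of_im {x y : G} (hx : x * x = 1) (hy : y * y = 1) (h : x * y * (x * y) = 1) :
    Commute x y := by
  have h1 : x * y = (x * y)⁻¹ := eq_inv_of_mul_eq_one_left h
  rw [mul_inv_rev, iinv hx, iinv hy] at h1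
  exact h1

theorem k_swap (H : E3 G) {x y : G} (hx : x * x = 1) (hy : y * y = 1) : k x y = k y x := by
  have h := e2 H hx hy
  have h1 : x * y * (x * y) = (x * y * (x * y))⁻¹ := eq_inv_of_mul_eq_one_left h
  unfold k
  rw [h1]
  simp only [mul_inv_rev, iinv hx, iinv hy]

theorem k_one {x y : G} (hx : x * x = 1) (hy : y * y = 1) (h : Commute x y) : k x y = 1 := im hx hy h

theorem co_one {x y : G} (hx : x * x = 1) (hy : y * y = 1) (h : k x y = 1) : Commute x y :=
  co_of_im hx hy h

theorem kl (H : E3 G) {x y : G} (hx : x * x = 1) (hy : y * y = 1) : Commute (k x y) x := by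
  show k x y * x = x * k x y
  rw [k_swap H hx hy]
  conv_rhs => rw [k_swap H hy hx]
  simp only [k, mul_assoc, cc hx, hx, mul_one]

theorem kr (H : E3 G) {x y : G} (hx : x * x = 1) (hy : y * y = 1) : Commute (k x y) y := by
  rw [k_swap H hx hy]; exact kl H hy hx

/-- conjugation by an involution -/
theorem cj_k {x y g : G} (hg : g * g = 1) : g * k x y * g = k (g * x * g) (g * y * g) := by
  simp only [k, mul_assoc, cc hg]

theorem cj_co {x y g : G} (hg : g * g = 1) (h : Commute x y) :
    Commute (g * x * g) (g * y * g) := by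
  show g * x * g * (g * y * g) = g * y * g * (g * x * g)
  simp only [mul_assoc, cc hg]
  rw [← mul_assoc x y g, h.eq, mul_assoc]

theorem cj_fix {x g : G} (hg : g * g = 1) (h : Commute x g) : g * x * g = x := by
  rw [← h.eq, mul_assoc, hg, mul_one]

theorem fix_cj {x g : G} (hg : g * g = 1) (h : g * x * g = x) : Commute x g := by
  show x * g = g * x
  conv_lhs => rw [← h]
  rw [mul_assoc, hg, mul_one]

/-- `x ^ y = x [x, y]` -/
theorem cj_eq {x y : G} (hx : x * x = 1) : y * x * y = x * k x y := by
  simp only [k, mul_assoc, cc hx]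

theorem k_eq {x y : G} (hx : x * x = 1) : k x y = x * (y * x * y) := by
  simp only [k, mul_assoc]

/-- `x` commutes with `x ^ y` -/
theorem co_cj (H : E3 G) {x y : G} (hx : x * x = 1) (hy : y * y = 1) : Commute x (y * x * y) := by
  rw [cj_eq hx]
  exact (Commute.refl x).mul_right (kl H hx hy).symm

theorem k_mul_left {x y z : G} (hx : x * x = 1) (hy : y * y = 1) (hz : z * z = 1)
    (h : Commute x y) : k (x * y) z = y * k x z * y * k y z := by
  simp only [k, mul_assoc, cc hy, cc hz]
  rw [← mul_assoc x y, h.eq, mul_assoc y x]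

theorem k_mul_right {x y z : G} (hx : x * x = 1) (hy : y * y = 1) (hz : z * z = 1)
    (h : Commute y z) : k x (y * z) = k x z * (z * k x y * z) := by
  simp only [k, mul_assoc, cc hy, cc hz, cc hx]
  rw [← mul_assoc y z, h.eq, mul_assoc z y]

section P

variable (H : E3 G) {x y z : G} (hx : x * x = 1) (hy : y * y = 1) (hz : z * z = 1)
  (h : Commute x y)
include H hx hy hz h

theorem P_aux : y * k x z * y * k y z = k x z * (x * k y z * x) ∧
    k x z * (x * k y z * x) = (x * k y z * x) * k x z := by
  have hxy := im hx hy h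
  have h1 := k_mul_left hx hy hz h
  have h2 := k_mul_left hy hx hz h.symm
  rw [← h.eq] at h2
  have h3 : Commute (k (x * y) z) (x * y) := kl H hxy hz
  have h4 : x * y * k (x * y) z * (x * y) = k (x * y) z := cj_fix hxy h3
  have h5 : x * y * (y * k x z * y * k y z) * (x * y) = k x z * (x * k y z * x) := by
    have e1 : y * k y z * y = k y z := cj_fix hy (kl H hy hz)
    have e2 : x * k x z = k x z * x := (kl H hx hz).eq.symm
    calc x * y * (y * k x z * y * k y z) * (x * y)
        = x * (k x z * (y * k y z * y)) * x := by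
          simp only [mul_assoc, cc hy]; rw [h.eq]
      _ = (x * k x z) * (k y z * x) := by rw [e1]; simp only [mul_assoc]
      _ = _ := by rw [e2]; simp only [mul_assoc]
  rw [h1, h5] at h4
  refine ⟨h4.symm, ?_⟩
  rw [h4, ← h1, h2]

theorem P1 : k (k x z) y = k (k y z) x := by
  have h1 := (P_aux H hx hy hz h).1
  have ia := ik H hx hz
  have ib := ik H hy hz
  have h2 : k x z * (y * k x z * y) = x * k y z * x * k y z := by
    have : k x z * (y * k x z * y * k y z) * k y z = k x z * (k x z * (x * k y z * x)) * k y z := by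
      rw [h1]
    simp only [mul_assoc, cc ia, ib, mul_one] at this ⊢
    exact this
  rw [k_swap H ib hx]
  unfold k at h2 ⊢
  simp only [mul_assoc] at h2 ⊢
  exact h2

theorem P3 : Commute (k (k x z) y) z := by
  have hxy := im hx hy h
  have ia := ik H hx hz
  have ib := ik H hy hz
  have h1 := k_mul_left hx hy hz h
  have h3 : Commute (k (x * y) z) z := kr H hxy hz
  have h4 : y * k x z * y = k (x * y) z * k y z := by
    rw [h1, mul_assoc _ (k y z), ib, mul_one]
  rw [k_eq ia, h4]
  exact (kr H hx hz).mul_left (h3.mul_left (kr H hy hz))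

theorem P2 : Commute (k x z) (k y z) := by
  have hxy := im hx hy h
  have ia := ik H hx hz
  have ib := ik H hy hz
  have h1 := k_mul_left hx hy hz h
  have i1 := ik H hxy hz
  have i2 : y * k x z * y * (y * k x z * y) = 1 := ic ia hy
  rw [h1] at i1
  have h2 : Commute (y * k x z * y) (k y z) := co_of_im i2 ib i1
  have h3 : k x z = k (k x z) y * (y * k x z * y) := by
    rw [k_eq ia, mul_assoc, i2, mul_one]
  rw [h3]
  refine Commute.mul_left ?_ h2
  rw [P1 H hx hy hz h]
  exact kl H ib hx

theorem P4 : Commute (k (k x z) y) x := by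
  rw [P1 H hx hy hz h]
  exact kr H (ik H hy hz) hx

theorem P5 : k (x * y) z = k x z * k y z * k (k x z) y := by
  have ia := ik H hx hz
  have ib := ik H hy hz
  have h3 : Commute (k (k x z) y) (k y z) := by
    rw [P1 H hx hy hz h]
    exact kl H ib hx
  rw [k_mul_left hx hy hz h, cj_eq ia, mul_assoc, h3.eq, ← mul_assoc]

end P

/-- `z a b c = [[a, b], [a, c]]` -/
def z (a b c : G) : G := k (k a b) (k a c)

theorem z_swap (H : E3 G) {a b c : G} (ha : a * a = 1) (hb : b * b = 1) (hc : c * c = 1) :
    z a b c = z a c b := k_swap H (ik H ha hb) (ik H ha hc)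

theorem iz (H : E3 G) {a b c : G} (ha : a * a = 1) (hb : b * b = 1) (hc : c * c = 1) :
    z a b c * z a b c = 1 := ik H (ik H ha hb) (ik H ha hc)

theorem z1 (H : E3 G) {a b c : G} (ha : a * a = 1) (hb : b * b = 1) (hc : c * c = 1) :
    Commute (z a b c) a := by
  unfold z
  unfold k
  have h1 := kl H ha hb
  have h2 := kl H ha hc
  unfold k at h1 h2
  exact (h1.mul_left h2).mul_left (h1.mul_left h2)

theorem z3 (H : E3 G) {a b c : G} (ha : a * a = 1) (hb : b * b = 1) (hc : c * c = 1) :
    Commute (z a b c) c := by
  rw [z_swap H ha hb hc]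
  exact P3 H ha (ik H ha hb) hc (kl H ha hb).symm

theorem z2 (H : E3 G) {a b c : G} (ha : a * a = 1) (hb : b * b = 1) (hc : c * c = 1) :
    Commute (z a b c) b := by
  rw [z_swap H ha hb hc]
  exact z3 H ha hc hb

theorem co_k {t x y : G} (h1 : Commute t x) (h2 : Commute t y) : Commute t (k x y) := by
  unfold k
  exact (h1.mul_right h2).mul_right (h1.mul_right h2)

theorem co_z {t x y w : G} (h1 : Commute t x) (h2 : Commute t y) (h3 : Commute t w) :
    Commute t (z x y w) := co_k (co_k h1 h2) (co_k h1 h3)

/-- class two: the square of a product of three involutions -/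
theorem sq3 {u v w : G} (hu : u * u = 1) (hv : v * v = 1) (hw : w * w = 1)
    (i1 : k u v * k u v = 1) (i2 : k u w * k u w = 1) (i3 : k v w * k v w = 1)
    (a1 : Commute (k u v) w) (a2 : Commute (k u w) v) (a3 : Commute (k v w) u)
    (b1 : Commute (k u v) u) (b2 : Commute (k u v) v) (b3 : Commute (k u w) u)
    (b4 : Commute (k u w) w) (b5 : Commute (k v w) v) (b6 : Commute (k v w) w) :
    u * v * w * (u * v * w) = k u v * k u w * k v w := by
  have e1 : w * u = u * w * k u w := by
    have : u * w * k u w * (w * u)⁻¹ = 1 := by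
      rw [mul_inv_rev, iinv hu, iinv hw]
      have : u * w * k u w * (u * w) = k u w * k u w := by
        rw [mul_assoc, (b3.mul_right b4).eq, ← mul_assoc]
        rfl
      simpa [mul_assoc] using this.trans i2
    exact (mul_inv_eq_one.1 this).symm
  have e2 : w * v = v * w * k v w := by
    have : v * w * k v w * (w * v)⁻¹ = 1 := by
      rw [mul_inv_rev, iinv hv, iinv hw]
      have : v * w * k v w * (v * w) = k v w * k v w := by
        rw [mul_assoc, (b5.mul_right b6).eq, ← mul_assoc]
        rfl
      simpa [mul_assoc] using this.trans i3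
    exact (mul_inv_eq_one.1 this).symm
  calc u * v * w * (u * v * w) = u * v * (w * u) * v * w := by simp only [mul_assoc]
    _ = u * v * (u * w * k u w) * v * w := by rw [e1]
    _ = u * v * u * w * (k u w * v) * w := by simp only [mul_assoc]
    _ = u * v * u * w * (v * k u w) * w := by rw [a2.eq]
    _ = u * v * u * (w * v) * (k u w * w) := by simp only [mul_assoc]
    _ = u * v * u * (v * w * k v w) * (w * k u w) := by rw [e2, b4.eq]
    _ = (u * v * (u * v)) * w * (k v w * w) * k u w := by simp only [mul_assoc]
    _ = (u * v * (u * v)) * w * (w * k v w) * k u w := by rw [b6.eq]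
    _ = k u v * k v w * k u w := by simp only [mul_assoc, cc hw, k]
    _ = _ := by
      rw [mul_assoc, mul_assoc, (show Commute (k v w) (k u w) from co_k a3 b6).eq]

/-- the product relation -/
theorem e3 (H : E3 G) {a b c : G} (ha : a * a = 1) (hb : b * b = 1) (hc : c * c = 1) :
    z a b c * z b a c * z c a b = 1 := by
  have iu := ik H ha hb
  have iv := ik H ha hc
  have iw := ik H hb hc
  have iv' : b * k a c * b * (b * k a c * b) = 1 := ic iv hb
  have h0 : a * b * c * (a * b * c) = k a b * (b * k a c * b) * k b c := by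
    simp only [k, mul_assoc, cc hb, cc ha, cc hc]
  have hub : b * k a b * b = k a b := cj_fix hb (kr H ha hb)
  have hwb : b * k b c * b = k b c := cj_fix hb (kl H hb hc)
  have z1' := z1 H ha hb hc
  have z2' := z2 H ha hb hc
  have z3' := z3 H ha hb hc
  have y1' := z1 H hb ha hc
  have y2' := z2 H hb ha hc
  have y3' := z3 H hb ha hc
  have x1' := z1 H hc ha hb
  have x2' := z2 H hc ha hb
  have x3' := z3 H hc ha hb
  have k1 : k (k a b) (b * k a c * b) = z a b c := by
    have := cj_k (x := k a b) (y := k a c) hb
    rw [hub] at this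
    rw [← this]
    exact cj_fix hb z2'
  have k2 : k (k a b) (k b c) = z b a c := by
    unfold z; rw [k_swap H ha hb]
  have k3 : k (b * k a c * b) (k b c) = z c a b := by
    have := cj_k (x := k a c) (y := k b c) hb
    rw [hwb] at this
    rw [← this, k_swap H ha hc, k_swap H hb hc]
    exact cj_fix hb x3'
  have s := sq3 iu iv' iw (by rw [k1]; exact iz H ha hb hc) (by rw [k2]; exact iz H hb ha hc)
    (by rw [k3]; exact iz H hc ha hb) (by rw [k1]; exact co_k z2' z3')
    (by rw [k2]; exact ((y1'.mul_right (co_k y2' y3')).mul_right y1'))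
    (by rw [k3]; exact co_k x2' x3') (by rw [k1]; exact co_k z1' z2')
    (by rw [k1]; exact ((z2'.mul_right (co_k z1' z3')).mul_right z2'))
    (by rw [k2]; exact co_k y2' y1') (by rw [k2]; exact co_k y1' y3')
    (by rw [k3]; exact ((x3'.mul_right (co_k x2' x1')).mul_right x3'))
    (by rw [k3]; exact co_k x3' x1')
  rw [k1, k2, k3] at s
  rw [← s, ← h0, ← mul_assoc]
  have := H a b c ha hb hc
  simpa only [mul_assoc] using this

/-- Hall-Witt identity -/
theorem hw (H : E3 G) {x y t : G} (hx : x * x = 1) (hy : y * y = 1) (ht : t * t = 1) :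
    k (k x y) t * k (k y t) x * k (k t x) y = 1 := by
  have key : y * k (k x y) t * y * (t * k (k y t) x * t) * (x * k (k t x) y * x) = 1 := by
    have a1 : k x y = k y x := k_swap H hx hy
    have a2 : k y t = k t y := k_swap H hy ht
    have a3 : k t x = k x t := k_swap H ht hx
    have b1 : k (k x y) t = k y x * t * k x y * t := by
      conv_lhs => unfold k
      rw [show x * y * (x * y) = k x y from rfl]
      conv_lhs => rw [show k x y * t * (k x y * t) = k x y * t * k x y * t by simp only [mul_assoc]]
      conv_lhs => arg 1; arg 1; arg 1; rw [a1]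
    have b2 : k (k y t) x = k t y * x * k y t * x := by
      conv_lhs => unfold k
      rw [show y * t * (y * t) = k y t from rfl]
      conv_lhs => rw [show k y t * x * (k y t * x) = k y t * x * k y t * x by simp only [mul_assoc]]
      conv_lhs => arg 1; arg 1; arg 1; rw [a2]
    have b3 : k (k t x) y = k x t * y * k t x * y := by
      conv_lhs => unfold k
      rw [show t * x * (t * x) = k t x from rfl]
      conv_lhs => rw [show k t x * y * (k t x * y) = k t x * y * k t x * y by simp only [mul_assoc]]
      conv_lhs => arg 1; arg 1; arg 1; rw [a3]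
    rw [b1, b2, b3]
    simp only [k, mul_assoc, cc hx, cc hy, cc ht, hx, hy, ht]
  have i1 := ik H hx hy
  have i2 := ik H hy ht
  have i3 := ik H ht hx
  have j1 := ik H i1 ht
  have j2 := ik H i2 hx
  have j3 := ik H i3 hy
  rw [cj_eq j1, cj_eq j2, cj_eq j3] at key
  -- the three central factors
  have q1 : k (k (k x y) t) y = z y x t := by
    rw [P1 H i1 hy ht (kr H hx hy), k_swap H (ik H hy ht) i1]
    unfold z
    rw [k_swap H hx hy]
  have q2 : k (k (k y t) x) t = z t y x := by
    rw [P1 H i2 ht hx (kr H hy ht), k_swap H (ik H ht hx) i2]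
    unfold z
    rw [k_swap H hy ht]
  have q3 : k (k (k t x) y) x = z x t y := by
    rw [P1 H i3 hx hy (kr H ht hx), k_swap H (ik H hx hy) i3]
    unfold z
    rw [k_swap H ht hx]
  rw [q1, q2, q3] at key
  have c1 : Commute (z y x t) (k (k y t) x) := co_k (co_k (z1 H hy hx ht) (z3 H hy hx ht)) (z2 H hy hx ht)
  have c1' : Commute (z y x t) (k (k t x) y) := co_k (co_k (z3 H hy hx ht) (z2 H hy hx ht)) (z1 H hy hx ht)
  have c2 : Commute (z t y x) (k (k t x) y) := co_k (co_k (z1 H ht hy hx) (z3 H ht hy hx)) (z2 H ht hy hx)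
  have E := e3 H hx hy ht
  have c3 : Commute (z y x t) (z t y x) := co_z (z3 H hy hx ht) (z1 H hy hx ht) (z2 H hy hx ht)
  rw [z_swap H hx hy ht, z_swap H ht hx hy] at E
  calc k (k x y) t * k (k y t) x * k (k t x) y
      = k (k x y) t * k (k y t) x * k (k t x) y * (z x t y * z y x t * z t y x) := by rw [E, mul_one]
    _ = k (k x y) t * z y x t * (k (k y t) x * z t y x) * (k (k t x) y * z x t y) := by
      have c4 : Commute (z x t y) (z y x t) := co_z (z3 H hx ht hy) (z1 H hx ht hy) (z2 H hx ht hy)
      have c5 : Commute (z x t y) (z t y x) := co_z (z2 H hx ht hy) (z3 H hx ht hy) (z1 H hx ht hy)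
      have : k (k x y) t * z y x t * (k (k y t) x * z t y x) * (k (k t x) y * z x t y) =
          k (k x y) t * (z y x t * k (k y t) x) * (z t y x * k (k t x) y) * z x t y := by
        simp only [mul_assoc]
      rw [this, c1.eq, c2.eq]
      have : k (k x y) t * (k (k y t) x * z y x t) * (k (k t x) y * z t y x) * z x t y =
          k (k x y) t * k (k y t) x * (z y x t * k (k t x) y) * z t y x * z x t y := by
        simp only [mul_assoc]
      rw [this, c1'.eq]
      have : k (k x y) t * k (k y t) x * (k (k t x) y * z y x t) * z t y x * z x t y =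
          k (k x y) t * k (k y t) x * k (k t x) y * (z y x t * (z t y x * z x t y)) := by
        simp only [mul_assoc]
      rw [this, ← c5.eq, ← mul_assoc (z y x t), ← c4.eq]
    _ = 1 := by simpa only [mul_assoc] using key

end Pool.Agent.W5h59.Bu
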