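import Pool.Agent.W5h59.Bu.K

set_option autoImplicit false
set_option linter.all false

namespace Pool.Agent.W5h59.Bu

universe u

variable {G : Type u} [Group G]

/-- two elements which are commutators of each other are trivial -/
theorem loop (H : E3 G) {n m b c : G} (hn : n * n = 1) (hb : b * b = 1)
    (hc : c * c = 1) (h1 : k n c = m) (h2 : k m b = n) (h3 : Commute n b) : n = 1 ∧ m = 1 := by
  have e : Commute (k (k n c) b) c := P3 H hn hb hc h3
  rw [h1, h2] at e
  have hm : m = 1 := by rw [← h1]; exact k_one hn hc e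
  refine ⟨?_, hm⟩
  rw [← h2, hm, k_1_left b hb]

section C

variable (H : E3 G) {a A : G} (ha : a * a = 1) (hA : A * A = 1) (h : Commute a A)
include H ha hA h

theorem T1 {c : G} (hc : c * c = 1) : k a (c * A * c) = k (k a c) A := by
  have i1 := ik H hA hc
  have e1 : k a (k A c) = k (k a c) A := by
    rw [k_swap H ha i1, P1 H ha hA hc h]
  rw [cj_eq hA, kmr ha hA i1 (kl H hA hc).symm, k_one ha hA h, mul_one, e1]
  rw [k_one ha hA h]; exact Commute.one_left _

omit hA h in
theorem T2 {b c : G} (hb : b * b = 1) (hc : c * c = 1) : k (k a b) (c * a * c) = z a b c := by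
  have i1 := ik H ha hc
  have e : k (k a b) a = 1 := k_one (ik H ha hb) ha (kl H ha hb)
  rw [cj_eq ha, kmr (ik H ha hb) ha i1 (kl H ha hc).symm, e, mul_one]
  · rfl
  · rw [e]; exact Commute.one_left _

/-- facts from the pair `a ^ c`, `A ^ c` -/
theorem C0 {b c : G} (hb : b * b = 1) (hc : c * c = 1) :
    Commute (k (k a c) A) (z a b c) ∧ Commute (k (k a c) A) (k (k a b) A) ∧
    k (k (k a c) A) (k a b) = k (z a b c) (k A b) := by
  have hb' : c * b * c * (c * b * c) = 1 := ic hb hc
  have hac : c * a * c * (c * a * c) = 1 := ic ha hc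
  have hAc : c * A * c * (c * A * c) = 1 := ic hA hc
  have c1 : Commute a (c * a * c) := co_cj H ha hc
  have c2 : Commute (c * a * c) (c * A * c) := cj_co hc h
  have iZ := ik H (ik H ha hc) hA
  have fc : c * k (k a c) A * c = k (k a c) A := cj_fix hc (P3 H ha hA hc h)
  -- for the conjugated letter
  obtain ⟨p1, p2, -⟩ := K1 H ha hac hAc hb' c1 c2
  obtain ⟨p3, -⟩ := K3 H ha hac hAc hb' c1 c2
  rw [T1 H ha hA h hc] at p1 p2 p3
  rw [T2 H ha hb' hc] at p1 p3
  have T3 : z a (c * b * c) c = z a b c := by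
    rw [← T2 H ha hb' hc]
    have e1 : k (k a (c * b * c)) (c * a * c) = c * k (k (c * a * c) b) a * c := by
      rw [cj_k hc, cj_k hc]
      rw [show c * (c * a * c) * c = a by simp only [mul_assoc, cc hc, hc, mul_one]]
    rw [e1, P1 H hac ha hb c1.symm, T2 H ha hb hc]
    exact cj_fix hc (z3 H ha hb hc)
  rw [T3] at p1 p3
  refine ⟨p1, ?_, ?_⟩
  · have e := cj_co hc p2
    rw [fc, cj_k hc, cj_k hc] at e
    rw [show c * (c * A * c) * c = A by simp only [mul_assoc, cc hc, hc, mul_one],
      show c * (c * a * c) * c = a by simp only [mul_assoc, cc hc, hc, mul_one],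
      show c * (c * b * c) * c = b by simp only [mul_assoc, cc hc, hc, mul_one]] at e
    rwa [P1 H ha hA hb h]
  · have e := congrArg (fun t => c * t * c) p3
    beta_reduce at e
    rw [cj_k (x := k (k a c) A) hc, fc, cj_k (x := c * a * c) hc, cj_k (x := z a b c) hc,
      cj_k (x := c * A * c) hc] at e
    rw [show c * (c * A * c) * c = A by simp only [mul_assoc, cc hc, hc, mul_one],
      show c * (c * a * c) * c = a by simp only [mul_assoc, cc hc, hc, mul_one],
      show c * (c * b * c) * c = b by simp only [mul_assoc, cc hc, hc, mul_one],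
      cj_fix hc (z3 H ha hb hc)] at e
    exact e

theorem C1 {b c : G} (hb : b * b = 1) (hc : c * c = 1) :
    Commute (k (k a c) A) (k a b) ∧ Commute (z a b c) A := by
  obtain ⟨x1, x2, x3⟩ := C0 H ha hA h hb hc
  obtain ⟨y1, -, y3⟩ := C0 H ha hA h hc hb
  rw [z_swap H ha hc hb] at y1 y3
  have ip := ik H ha hb
  have ir := ik H ha hc
  have iZb := ik H ip hA
  have iZc := ik H ir hA
  have iz' := iz H ha hb hc
  have in' := ik H iz' hA
  have cZbp : Commute (k (k a b) A) (k a b) := kl H ip hA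
  have cZcr : Commute (k (k a c) A) (k a c) := kl H ir hA
  have zp : Commute (z a b c) (k a b) := co_k (z1 H ha hb hc) (z2 H ha hb hc)
  have zr : Commute (z a b c) (k a c) := co_k (z1 H ha hb hc) (z3 H ha hb hc)
  obtain ⟨N1, hN1⟩ : ∃ n, n = k (k (k a c) A) (k a b) := ⟨_, rfl⟩
  obtain ⟨N2, hN2⟩ : ∃ n, n = k (k (k a b) A) (k a c) := ⟨_, rfl⟩
  have iN1 : N1 * N1 = 1 := by rw [hN1]; exact ik H iZc ip
  have iN2 : N2 * N2 = 1 := by rw [hN2]; exact ik H iZb ir
  have e1 : A * k a b * A = k a b * k (k a b) A := cj_eq ip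
  have e2 : A * k a c * A = k a c * k (k a c) A := cj_eq ir
  have N1z : Commute N1 (z a b c) := by rw [hN1]; exact (co_k x1.symm zp).symm
  have N2z : Commute N2 (z a b c) := by rw [hN2]; exact (co_k y1.symm zr).symm
  have s1 : k (k a b) (k a c * k (k a c) A) = N1 * z a b c := by
    rw [kmr ip ir iZc cZcr.symm x1.symm, k_swap H ip iZc, ← hN1]
    rfl
  have s2 : k (k (k a b) A) (k a c * k (k a c) A) = N2 := by
    rw [k_mul_right iZb ir iZc cZcr.symm, k_one iZb iZc x2.symm, one_mul, ← hN2]
    refine cj_fix iZc ?_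
    rw [hN2]
    exact (co_k x2 cZcr).symm
  have irc := im ir iZc cZcr.symm
  have e3 : A * z a b c * A = z a b c * (N1 * N2) := by
    unfold z
    rw [cj_k hA, e1, e2, k_mul_left ip iZb irc cZbp.symm, s1, s2]
    have : Commute (N1 * z a b c) (k (k a b) A) := by
      refine Commute.mul_left ?_ y1.symm
      rw [hN1]; exact (co_k x2.symm cZbp).symm
    rw [cj_fix iZb this, N1z.eq, mul_assoc]
    rfl
  have en : k (z a b c) A = N1 * N2 := by
    rw [k_eq iz', e3, cc iz']
  have n1 : k (k (z a b c) A) b = N1 := by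
    rw [P1 H iz' hb hA (z2 H ha hb hc), k_swap H (ik H hb hA) iz', k_swap H hb hA, ← x3, hN1]
  have n2 : k (k (z a b c) A) c = N2 := by
    rw [P1 H iz' hc hA (z3 H ha hb hc), k_swap H (ik H hc hA) iz', k_swap H hc hA, ← y3, hN2]
  rw [en] at n1 n2 in'
  have cN : Commute N1 N2 := co_of_im iN1 iN2 in'
  have d1 : b * (N1 * N2) * b = N1 * N2 * N1 := by rw [cj_eq in', n1]
  have d2 : c * (N1 * N2) * c = N1 * N2 * N2 := by rw [cj_eq in', n2]
  have bN1 : Commute N1 b := by rw [← n1]; exact kr H in' hb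
  have cN2 : Commute N2 c := by rw [← n2]; exact kr H in' hc
  have f1 : k N1 c = N2 := by
    rw [k_eq iN1]
    have : c * N1 * c * N2 = N1 := by
      have e : c * (N1 * N2) * c = c * N1 * c * N2 := by
        rw [show c * (N1 * N2) * c = c * N1 * (N2 * c) by simp only [mul_assoc], cN2.eq]
        simp only [mul_assoc]
      rw [← e, d2, mul_assoc, iN2, mul_one]
    have : c * N1 * c = N1 * N2 := by
      rw [← this, mul_assoc _ N2, iN2, mul_one, this]
    rw [this, cc iN1]
  have f2 : k N2 b = N1 := by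
    rw [k_eq iN2]
    have : N1 * (b * N2 * b) = N2 := by
      have e : b * (N1 * N2) * b = N1 * (b * N2 * b) := by
        rw [show b * (N1 * N2) * b = (b * N1) * (N2 * b) by simp only [mul_assoc], ← bN1.eq]
        simp only [mul_assoc]
      rw [← e, d1, mul_assoc, ← cN.eq, cc iN1]
    have : b * N2 * b = N1 * N2 := by rw [← this, cc iN1, this]
    rw [this, cN.eq, cc iN2]
  obtain ⟨t1, t2⟩ := loop H iN1 hb hc f1 f2 bN1
  constructor
  · apply co_one iZc ip
    rw [← hN1, t1]
  · apply co_one iz' hA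
    rw [en, t1, t2, one_mul]

/-- `[[a, c], A]` commutes with `[a, b]` and `[A, b]`, and so on -/
theorem C2 {b c : G} (hb : b * b = 1) (hc : c * c = 1) :
    Commute (k (k a c) A) (k a b) ∧ Commute (k (k a c) A) (k A b) := by
  refine ⟨(C1 H ha hA h hb hc).1, ?_⟩
  have := (C1 H hA ha h.symm hb hc).1
  rwa [P1 H hA ha hc h.symm] at this

theorem C4 {b c : G} (hb : b * b = 1) (hc : c * c = 1) :
    z a (k A b) c = 1 ∧ z (k A b) a c = 1 ∧ z c a (k A b) = 1 := by
  have ip := ik H ha hb
  have iq := ik H hA hb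
  have ir := ik H ha hc
  have iZb := ik H ip hA
  have e0 : k (k A b) a = k (k a b) A := (P1 H ha hA hb h).symm
  have g1 : z a (k A b) c = 1 := by
    unfold z
    rw [k_swap H ha iq, e0]
    exact k_one iZb ir (C2 H ha hA h hc hb).1
  have g2 : z (k A b) a c = 1 := by
    unfold z
    rw [e0]
    refine k_one iZb (ik H iq hc) ?_
    have W := hw H hA hb hc
    have w1 : Commute (k (k a b) A) (k (k b c) A) := by
      rw [k_swap H (ik H hb hc) hA]
      exact (C2 H ha hA h (ik H hb hc) hb).2
    have w2 : Commute (k (k a b) A) (k (k c A) b) := by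
      refine co_k ?_ (P3 H ha hA hb h)
      rw [k_swap H hc hA]
      exact (C2 H ha hA h hc hb).2
    have e : k (k A b) c = (k (k b c) A * k (k c A) b)⁻¹ := by
      rw [eq_inv_iff_mul_eq_one, ← mul_assoc]
      exact W
    rw [e]
    exact (w1.mul_right w2).inv_right
  refine ⟨g1, g2, ?_⟩
  have := e3 H ha iq hc
  rwa [g1, g2, one_mul, one_mul] at this

end C

end Pool.Agent.W5h59.Bu
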