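import Pool.Agent.W5h59.Bu.C

set_option autoImplicit false
set_option linter.all false

namespace Pool.Agent.W5h59.Bu

universe u

variable {G : Type u} [Group G]

section C

variable (H : E3 G) {a A : G} (ha : a * a = 1) (hA : A * A = 1) (h : Commute a A)
include H ha hA h

theorem C_mu {b w : G} (hb : b * b = 1) (hw' : w * w = 1) (hbw : Commute b w) :
    k (k a b) (k A w) = k (k A b) (k a w) := by
  have haA := im ha hA h
  have ip := ik H ha hb
  have iq := ik H hA hb
  have ip' := ik H ha hw'
  have iq' := ik H hA hw'
  have iZb := ik H ip hA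
  have iZw := ik H ip' hA
  have e : Commute (k a b * k A b * k (k a b) A) (k a w * k A w * k (k a w) A) := by
    have := P2 H hb hw' haA hbw
    rwa [k_swap H hb haA, k_swap H hw' haA, P5 H ha hA hb h, P5 H ha hA hw' h] at this
  have cpq : Commute (k a b) (k A b) := P2 H ha hA hb h
  have cpq' : Commute (k a w) (k A w) := P2 H ha hA hw' h
  have cpp : Commute (k a b) (k a w) := by
    have := P2 H hb hw' ha hbw
    rwa [k_swap H hb ha, k_swap H hw' ha] at this
  have cqq : Commute (k A b) (k A w) := by
    have := P2 H hb hw' hA hbw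
    rwa [k_swap H hb hA, k_swap H hw' hA] at this
  have Zbp' : Commute (k (k a b) A) (k a w) := (C2 H ha hA h hw' hb).1
  have Zbq' : Commute (k (k a b) A) (k A w) := (C2 H ha hA h hw' hb).2
  have ZwP : Commute (k (k a w) A) (k a b) := (C2 H ha hA h hb hw').1
  have ZwQ : Commute (k (k a w) A) (k A b) := (C2 H ha hA h hb hw').2
  have ZZ : Commute (k (k a w) A) (k (k a b) A) := (C0 H ha hA h hb hw').2.1
  have e1 : Commute (k a b * k A b) (k a w * k A w * k (k a w) A) := by
    have := e.mul_left ((Zbp'.mul_right Zbq').mul_right ZZ.symm)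
    rwa [mul_assoc (k a b * k A b), iZb, mul_one] at this
  have e2 : Commute (k a b * k A b) (k a w * k A w) := by
    have := e1.mul_right ((ZwP.mul_right ZwQ).symm)
    rwa [mul_assoc (k a w * k A w), iZw, mul_one] at this
  have ipq := im ip iq cpq
  have ipq' := im ip' iq' cpq'
  have e3 := k_one ipq ipq' e2
  have c1 : Commute (k (k A b) (k a w)) (k A w) := by
    apply co_one (ik H iq ip') iq'
    rw [P1 H iq iq' ip' cqq, k_one iq' ip' cpq'.symm]
    exact k_1_left _ iq
  have c2 : Commute (k (k a b) (k A w)) (k A b) := by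
    apply co_one (ik H ip iq') iq
    rw [P1 H ip iq iq' cpq, k_one iq iq' cqq]
    exact k_1_left _ ip
  have g1 : k (k a b * k A b) (k a w) = k (k A b) (k a w) := by
    rw [kml ip iq ip' cpq, k_one ip ip' cpp, one_mul]
    rw [k_one ip ip' cpp]; exact Commute.one_left _
  have g2 : k (k a b * k A b) (k A w) = k (k a b) (k A w) := by
    rw [kml ip iq iq' cpq c2, k_one iq iq' cqq, mul_one]
  rw [kmr ipq ip' iq' cpq' (by rw [g1]; exact c1), g1, g2] at e3
  exact eq_of_mul (ik H iq ip') e3

theorem nu_eq {b c : G} (hb : b * b = 1) (hc : c * c = 1) :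
    k (z b a c) A = k (z b A c) a := by
  have iw := ik H hb hc
  have m := C_mu H ha hA h hb iw (kl H hb hc).symm
  have ip := ik H ha hb
  have iq := ik H hA hb
  have ip' := ik H ha iw
  have iq' := ik H hA iw
  have w1 := hw H ip hA iw
  have w2 := hw H iq ha iw
  have s1 : k (k b c) (k a b) = z b a c := by
    unfold z; rw [k_swap H iw ip, k_swap H ha hb]
  have s2 : k (k b c) (k A b) = z b A c := by
    unfold z; rw [k_swap H iw iq, k_swap H hA hb]
  rw [s1] at w1
  rw [s2, ← P1 H ha hA hb h, k_swap H ip' iq, ← m, k_swap H ip iq'] at w2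
  rw [← w2] at w1
  exact mul_left_cancel w1

end C

/-- the last step: an action of the symmetric group of degree three -/
theorem collapse (H : E3 G) {n b c : G} (hn : n * n = 1) (hb : b * b = 1) (hc : c * c = 1)
    (h1 : Commute n (b * n * b)) (h2 : c * n * c = n * (b * n * b)) : n = 1 := by
  obtain ⟨B, hB⟩ : ∃ B, B = b * n * b := ⟨_, rfl⟩
  obtain ⟨C, hC⟩ : ∃ C, C = c * n * c := ⟨_, rfl⟩
  rw [← hB] at h1 h2
  rw [← hC] at h2
  have iB : B * B = 1 := by rw [hB]; exact ic hn hb
  have bB : b * B * b = n := by rw [hB]; simp only [mul_assoc, cc hb, hb, mul_one]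
  have cC : c * C * c = n := by rw [hC]; simp only [mul_assoc, cc hc, hc, mul_one]
  have bC : b * C * b = C := by
    rw [h2, show b * (n * B) * b = (b * n * b) * (b * B * b) by simp only [mul_assoc, cc hb],
      ← hB, bB, h1.eq]
  have cB : c * B * c = B := by
    have : B = n * C := by rw [h2, cc hn]
    rw [this, show c * (n * C) * c = (c * n * c) * (c * C * c) by simp only [mul_assoc, cc hc],
      ← hC, cC, h2, mul_assoc, ← h1.eq]
  -- conjugation by `b c`
  have s1 : c * (b * n * b) * c = B := by rw [← hB, cB]
  have s2 : c * (b * B * b) * c = C := by rw [bB, ← hC]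
  have s3 : c * (b * C * b) * c = n := by rw [bC, cC]
  have e : b * c * (b * c) * (b * c * (b * c)) = 1 := e2 H hb hc
  have e' : c * b * (c * b) * (c * b * (c * b)) = 1 := e2 H hc hb
  have key : B = n := by
    have t : c * (b * (c * (b * (c * (b * (c * (b * n * b) * c) * b) * c) * b) * c) * b) * c =
        c * b * (c * b) * (c * b * (c * b)) * n * (b * c * (b * c) * (b * c * (b * c))) := by
      simp only [mul_assoc]
    rw [e, e', s1, s2, s3, s1, one_mul, mul_one] at t
    exact t
  rw [key] at h2
  rw [hn] at h2
  rw [hC] at h2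
  have : n = c * (c * n * c) * c := by simp only [mul_assoc, cc hc, hc, mul_one]
  rw [this, h2, mul_one, hc]

section D

variable (H : E3 G) {a A : G} (ha : a * a = 1) (hA : A * A = 1) (h : Commute a A)
include H ha hA h

theorem C5 {b c : G} (hb : b * b = 1) (hc : c * c = 1) :
    Commute (z b a c) A ∧ Commute (z c a b) A := by
  have iw := ik H hb hc
  have izb := iz H hb ha hc
  have izc := iz H hc ha hb
  have izb' := iz H hb hA hc
  have izc' := iz H hc hA hb
  have iza := iz H ha hb hc
  obtain ⟨n, hn⟩ : ∃ n, n = k (z b a c) A := ⟨_, rfl⟩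
  have inn : n * n = 1 := by rw [hn]; exact ik H izb hA
  have n1 : n = k (z b A c) a := by rw [hn]; exact nu_eq H ha hA h hb hc
  have PZ := e3 H ha hb hc
  have cza : Commute (z a b c) A := (C1 H ha hA h hb hc).2
  have n2 : n = k (z c a b) A := by
    have q1 : A * z b a c * A = z b a c * n := by rw [hn]; exact cj_eq izb
    have q2 : A * z c a b * A = z c a b * k (z c a b) A := cj_eq izc
    have q3 : A * z a b c * A = z a b c := cj_fix hA cza
    have q4 : A * (z a b c * z b a c * z c a b) * A =
        (A * z a b c * A) * (A * z b a c * A) * (A * z c a b * A) := by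
      simp only [mul_assoc, cc hA]
    rw [q1, q2, q3, PZ] at q4
    have q5 : z a b c * z b a c * (n * (z c a b * k (z c a b) A)) =
        z a b c * z b a c * z c a b := by
      rw [PZ]
      have : A * 1 * A = 1 := by rw [mul_one, hA]
      rw [← this, q4]
      simp only [mul_assoc]
    have q6 := mul_left_cancel q5
    rw [← (kl H izc hA).eq, ← mul_assoc] at q6
    have q7 : n * k (z c a b) A = 1 := by
      have := mul_right_cancel (q6.trans (one_mul _).symm)
      exact this
    exact eq_of_mul (ik H izc hA) q7
  have n3 : n = k (z c A b) a := by rw [n2]; exact nu_eq H ha hA h hc hb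
  -- commutations of n
  have nA : Commute n A := by rw [hn]; exact kr H izb hA
  have na : Commute n a := by rw [n1]; exact kr H izb' ha
  have nzb : Commute n (z b a c) := by rw [hn]; exact kl H izb hA
  have nzc : Commute n (z c a b) := by rw [n2]; exact kl H izc hA
  have nzb' : Commute n (z b A c) := by rw [n1]; exact kl H izb' ha
  have nzc' : Commute n (z c A b) := by rw [n3]; exact kl H izc' ha
  have zbb := z1 H hb ha hc
  have zba := z2 H hb ha hc
  have zbc := z3 H hb ha hc
  have zcc := z1 H hc ha hb
  have zca := z2 H hc ha hb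
  have zcb := z3 H hc ha hb
  have zbb' := z1 H hb hA hc
  have zbA' := z2 H hb hA hc
  have zbc' := z3 H hb hA hc
  have zcc' := z1 H hc hA hb
  have zcA' := z2 H hc hA hb
  have zcb' := z3 H hc hA hb
  -- k n b, k n c in various forms
  have kb : k n b = k (k b A) (z b a c) := by rw [hn]; exact P1 H izb hb hA zbb
  have kb2 : k n b = k (k b A) (z c a b) := by rw [n2]; exact P1 H izc hb hA zcb
  have kb3 : k n b = k (k b a) (z c A b) := by rw [n3]; exact P1 H izc' hb ha zcb'
  have kc : k n c = k (k c A) (z b a c) := by rw [hn]; exact P1 H izb hc hA zbc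
  have kc2 : k n c = k (k c A) (z c a b) := by rw [n2]; exact P1 H izc hc hA zcc
  have kc3 : k n c = k (k c a) (z b A c) := by rw [n1]; exact P1 H izb' hc ha zbc'
  have iq := ik H hb hA
  have is' := ik H hc hA
  have knb := ik H inn hb
  have knc := ik H inn hc
  -- n commutes with [A,b] and [A,c]
  have comq : ∀ (d : G) (hd : d * d = 1) (w : G) (hw' : w * w = 1) (hnw : n = k w A)
      (hwd : Commute w d) (hk : k n d = k (k d A) w), Commute n (k A d) := by
    intro d hd w hw' hnw hwd hk
    have iqd := ik H hA hd
    have e1 : d * n * d = k w (A * k A d) := by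
      rw [hnw, cj_k hd, cj_fix hd hwd, cj_eq hA]
    have e2' : k w (A * k A d) = k w (k A d) * (k A d * n * k A d) := by
      rw [k_mul_right hw' hA iqd (kl H hA hd).symm, hnw]
    have e3' : d * n * d = n * k w (k A d) := by
      rw [cj_eq inn, hk, k_swap H (ik H hd hA) hw', k_swap H hd hA]
    have cn : Commute n (k w (k A d)) := by
      have : Commute (k n d) n := kl H inn hd
      rw [hk, k_swap H (ik H hd hA) hw', k_swap H hd hA] at this
      exact this.symm
    have e4 : k w (k A d) * (k A d * n * k A d) = k w (k A d) * n := by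
      rw [← e2', ← e1, e3', cn.eq]
    have e5 := mul_left_cancel e4
    exact fix_cj iqd e5
  have nq : Commute n (k A b) := comq b hb _ izb hn zbb kb
  have ns : Commute n (k A c) := comq c hc _ izb hn zbc kc
  have Anb : Commute A (b * n * b) := by
    have : Commute n (b * A * b) := by rw [cj_eq hA]; exact nA.mul_right nq
    have := cj_co hb this
    rw [show b * (b * A * b) * b = A by simp only [mul_assoc, cc hb, hb, mul_one]] at this
    exact this.symm
  have Aknb : Commute A (k n b) := by
    rw [k_eq inn]; exact nA.symm.mul_right Anb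
  -- kappa
  have izw : Commute (z c a b) (k b c) := co_k zcb zcc
  have izw2 : Commute (z b a c) (k b c) := co_k zbb zbc
  have izw' : Commute (z b A c) (k b c) := co_k zbb' zbc'
  obtain ⟨κ, hκ⟩ : ∃ κ, κ = k (z c a b) (z b A c) := ⟨_, rfl⟩
  have iκ : κ * κ = 1 := by rw [hκ]; exact ik H izc izb'
  have κ1 : κ = k (k n b) (k b c) := by
    have := P1 H izc iw iq izw
    -- k (k zc (k b A)) ω = k (k ω (k b A)) zc
    rw [k_swap H izc iq, ← kb2] at this
    rw [this, hκ, k_swap H iw iq]
    rw [show k (k b A) (k b c) = z b A c from rfl]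
    exact k_swap H izc izb'
  have κ2 : κ = k (k n c) (k b c) := by
    have i' := ik H hc ha
    have := P1 H izb' iw i' izw'
    rw [k_swap H izb' i', ← kc3] at this
    rw [this, hκ, k_swap H iw i', k_swap H hb hc]
    rfl
  have κ3 : κ = k (z b a c) (z c A b) := by
    have := P1 H izb iw is' izw2
    rw [k_swap H izb is', ← kc, ← κ2] at this
    rw [this, k_swap H iw is', k_swap H hb hc]
    exact k_swap H izc' izb
  have bw : Commute b (k b c) := (kl H hb hc).symm
  have cw : Commute c (k b c) := (kr H hb hc).symm
  have κb : Commute κ b := by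
    rw [κ1, k_swap H inn hb, P1 H hb iw inn bw]
    exact kr H (ik H iw inn) hb
  have κn : Commute κ n := by
    rw [κ1, k_swap H inn hb]
    exact P3 H hb iw inn bw
  have κc : Commute κ c := by
    rw [κ2, k_swap H inn hc, P1 H hc iw inn cw]
    exact kr H (ik H iw inn) hc
  have κzc : Commute κ (z c a b) := by rw [hκ]; exact kl H izc izb'
  have κzb' : Commute κ (z b A c) := by rw [hκ]; exact kr H izc izb'
  have κzb : Commute κ (z b a c) := by rw [κ3]; exact kl H izb izc'
  have κA : A * κ * A = κ := by
    rw [hκ, cj_k hA, cj_eq izc, ← n2, cj_fix hA zbA', kml izc inn izb' nzc.symm, ← hκ,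
      k_one inn izb' nzb', mul_one]
    rw [← hκ]; exact κn
  -- z c a (b^A)
  have hbA : A * b * A * (A * b * A) = 1 := ic hb hA
  have hcA : A * c * A * (A * c * A) = 1 := ic hc hA
  have iqq := ik H hb hA
  have part : ∀ (b c : G) (hb : b * b = 1) (hc : c * c = 1),
      z c a (A * b * A) = k (k c a) (z b A c) * (z b A c * z c a b * z b A c) := by
    intro b c hb hc
    have iw := ik H hb hc
    have iq := ik H hb hA
    have izb' := iz H hb hA hc
    have ir := ik H hc ha
    have icq := ik H hc iq
    have izw' : Commute (z b A c) (k b c) := co_k (z1 H hb hA hc) (z3 H hb hA hc)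
    have iw2 := im iw izb' izw'.symm
    have bq : Commute b (k b A) := (kl H hb hA).symm
    have e1 : k c (A * b * A) = k c (k b A) * (k b c * z b A c) := by
      rw [cj_eq hb, k_mul_right hc hb iq bq, k_swap H hc hb, cj_eq iw]
      congr 2
      unfold z
      exact k_swap H iw iq
    have inv1 : k c (k b A) * (k b c * z b A c) * (k c (k b A) * (k b c * z b A c)) = 1 := by
      rw [← e1]; exact ik H hc (ic hb hA)
    have cg : Commute (k c (k b A)) (k b c * z b A c) := co_of_im icq iw2 inv1
    have g0 : k (k c a) (k c (k b A)) = 1 := by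
      have := (C4 H ha hA h hb hc).2.2
      unfold z at this
      rwa [k_swap H hA hb] at this
    have g1 : k (k c a) (k b c) = z c a b := by unfold z; rw [k_swap H hb hc]
    show k (k c a) (k c (A * b * A)) = _
    rw [e1]
    rw [k_mul_right ir icq iw2 cg, g0, mul_one, iw2, mul_one]
    rw [k_mul_right ir iw izb' izw'.symm, g1]
  have p1 : z c a (A * b * A) = k n c * (z c a b * κ) := by
    rw [part b c hb hc, ← kc3, cj_eq izc, ← hκ]
  have p2 : z b a (A * c * A) = k n b * (z b a c * κ) := by
    rw [part c b hc hb, k_swap H hb ha, ← k_swap H hb ha, ← kb3, cj_eq izb, ← κ3]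
  have p3 : z (A * b * A) a c = k n b * (z b a c * n * κ) := by
    have e : A * z b a (A * c * A) * A = z (A * b * A) a c := by
      unfold z
      rw [cj_k hA, cj_k (x := b) (y := a) hA, cj_k (x := b) (y := A * c * A) hA,
        cj_fix hA h, show A * (A * c * A) * A = c by simp only [mul_assoc, cc hA, hA, mul_one]]
    rw [← e, p2]
    have : A * (k n b * (z b a c * κ)) * A =
        (A * k n b * A) * (A * z b a c * A) * (A * κ * A) := by
      simp only [mul_assoc, cc hA]
    rw [this, cj_fix hA Aknb.symm, cj_eq izb, ← hn, κA]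
    simp only [mul_assoc]
  have p4 : z a (A * b * A) c = z a b c := by
    have ip := ik H ha hb
    have ir := ik H ha hc
    have iZ := ik H ip hA
    unfold z
    have : k a (A * b * A) = k a b * k (k a b) A := by
      have e := cj_k (x := a) (y := b) hA
      rw [cj_fix hA h] at e
      rw [← e]
      exact cj_eq ip
    rw [this, kml ip iZ ir (kl H ip hA).symm, k_one iZ ir (C2 H ha hA h hc hb).1, mul_one]
    have := (C0 H ha hA h hc hb).1
    rw [z_swap H ha hc hb] at this
    exact this.symm
  have E := e3 H ha hbA hc
  rw [p4, p3, p1] at E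
  -- conclude
  have key : k n b * n * k n c = 1 := by
    have c1 : Commute (z b a c) (k n b) := co_k nzb.symm zbb
    have c2 : Commute (z c a b) (k n c) := co_k nzc.symm zcc
    have c3 : Commute (z b a c) (k n c) := co_k nzb.symm zbc
    have c4 : Commute κ (k n c) := co_k κn κc
    have c5 : Commute (z c a b) (k n b) := co_k nzc.symm zcb
    have E' : z a b c * (z b a c * z c a b * (k n b * n * k n c)) = 1 := by
      rw [← E]
      have r1 : k n b * (z b a c * n * κ) * (k n c * (z c a b * κ)) =
          (k n b * z b a c) * n * (κ * k n c) * (z c a b * κ) := by simp only [mul_assoc]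
      rw [mul_assoc (z a b c), r1, c4.eq, ← c1.eq, ← κzc.eq]
      have r2 : z b a c * k n b * n * (k n c * κ) * (κ * z c a b) =
          z b a c * k n b * n * (k n c * (κ * κ) * z c a b) := by simp only [mul_assoc]
      rw [r2, iκ, mul_one, ← c2.eq]
      have r3 : z b a c * k n b * n * (z c a b * k n c) =
          z b a c * k n b * (n * z c a b) * k n c := by simp only [mul_assoc]
      rw [r3, nzc.eq]
      have r4 : z b a c * k n b * (z c a b * n) * k n c =
          z b a c * (k n b * z c a b) * n * k n c := by simp only [mul_assoc]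
      rw [r4, ← c5.eq]
      simp only [mul_assoc]
    have : z a b c * z b a c * z c a b * (k n b * n * k n c) = 1 := by
      simpa only [mul_assoc] using E'
    rwa [PZ, one_mul] at this
  have nb : Commute n (b * n * b) := co_cj H inn hb
  have fin : c * n * c = n * (b * n * b) := by
    have e1 : k n b = (b * n * b) * n := by rw [k_eq inn, nb.eq]
    have e2' : k n c = n * (c * n * c) := k_eq inn
    rw [e1, e2', mul_assoc (b * n * b), inn, mul_one, ← mul_assoc] at key
    have := eq_of_mul (ic inn hc) key
    rw [← this, nb.eq]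
  have : n = 1 := collapse H inn hb hc nb fin
  constructor
  · exact co_one izb hA (by rw [← hn, this])
  · exact co_one izc hA (by rw [← n2, this])

end D

end Pool.Agent.W5h59.Bu
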