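import Pool.Agent.W5h59.Bu.Base

set_option autoImplicit false
set_option linter.all false

namespace Pool.Agent.W5h59.Bu

universe u

variable {G : Type u} [Group G]

theorem kmr {x y w : G} (hx : x * x = 1) (hy : y * y = 1) (hw : w * w = 1)
    (h : Commute y w) (h' : Commute (k x y) w) : k x (y * w) = k x w * k x y := by
  rw [k_mul_right hx hy hw h, cj_fix hw h']

theorem kml {x y w : G} (hx : x * x = 1) (hy : y * y = 1) (hw : w * w = 1)
    (h : Commute x y) (h' : Commute (k x w) y) : k (x * y) w = k x w * k y w := by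
  rw [k_mul_left hx hy hw h, cj_fix hy h']

theorem eq_of_mul {x y : G} (hy : y * y = 1) (h : x * y = 1) : x = y := by
  rw [← iinv hy]; exact eq_inv_of_mul_eq_one_left h

theorem k_1_left (x : G) (hx : x * x = 1) : k 1 x = 1 := by simp [k, hx]

section K

variable (H : E3 G) {a x w t : G} (ha : a * a = 1) (hx : x * x = 1) (hw' : w * w = 1)
  (ht : t * t = 1) (h1 : Commute a x) (h2 : Commute x w)
include H ha hx hw' ht h1 h2

theorem K2 : Commute (z a w t) x ∧ Commute (z w a t) x ∧ Commute (z t a w) x := by
  have hax := im ha hx h1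
  have hwx := im hw' hx h2.symm
  have f1 : k (a * x) w = k a w := by
    rw [kml ha hx hw' h1 (co_k h1.symm h2).symm, k_one hx hw' h2, mul_one]
  have f2 : k (w * x) a = k w a := by
    rw [kml hw' hx ha h2.symm (co_k h2 h1.symm).symm, k_one hx ha h1.symm, mul_one]
  have q : z w (a * x) t = z w a t := by
    unfold z; rw [k_swap H hw' hax, f1, k_swap H ha hw']
  have p : z a (w * x) t = z a w t := by
    unfold z; rw [k_swap H ha hwx, f2, k_swap H hw' ha]
  have cp : Commute (z a w t) x := by
    have e := z2 H ha hwx ht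
    rw [p] at e
    have := (z2 H ha hw' ht).mul_right e
    rwa [cc hw'] at this
  have cq : Commute (z w a t) x := by
    have e := z2 H hw' hax ht
    rw [q] at e
    have := (z2 H hw' ha ht).mul_right e
    rwa [cc ha] at this
  refine ⟨cp, cq, ?_⟩
  have := e3 H ha hw' ht
  have e : z t a w = (z a w t * z w a t)⁻¹ := (inv_eq_of_mul_eq_one_right this).symm
  rw [e]
  exact (cp.mul_left cq).inv_left

theorem K1 : Commute (k a w) (k (k a t) x) ∧ Commute (k a w) (k (k w t) x) ∧
    Commute (k (k a t) x) (k (k w t) x) := by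
  obtain ⟨cp, cq, -⟩ := K2 H ha hx hw' ht h1 h2
  have hf : Commute (k a w) x := (co_k h1.symm h2).symm
  have iF := ik H ha hw'
  have iA := ik H ha ht
  have iW := ik H hw' ht
  have iB := ik H hx ht
  have g1 : Commute (k a w) (k (k a t) x) := by
    have e := P1 H iF hx iA hf
    rw [show k (k a w) (k a t) = z a w t from rfl, k_one (iz H ha hw' ht) hx cp] at e
    rw [k_swap H iA hx]
    exact (co_one (ik H hx iA) iF e.symm).symm
  have g2 : Commute (k a w) (k (k w t) x) := by
    have e := P1 H iF hx iW hf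
    rw [show k (k a w) (k w t) = z w a t by unfold z; rw [k_swap H ha hw'],
      k_one (iz H hw' ha ht) hx cq] at e
    rw [k_swap H iW hx]
    exact (co_one (ik H hx iW) iF e.symm).symm
  refine ⟨g1, g2, ?_⟩
  have e := e3 H ha hw' iB
  have Z1 : k (k a t) x = k (k x t) a := P1 H ha hx ht h1
  have Y1 : k (k w t) x = k (k x t) w := P1 H hw' hx ht h2.symm
  have e1 : z a w (k x t) = 1 := by
    unfold z
    rw [k_swap H ha iB, ← Z1]
    exact k_one iF (ik H iA hx) g1
  have e2 : z w a (k x t) = 1 := by
    unfold z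
    rw [k_swap H hw' iB, ← Y1, k_swap H hw' ha]
    exact k_one iF (ik H iW hx) g2
  rw [e1, e2, one_mul, one_mul] at e
  rw [Z1, Y1]
  exact co_one (ik H iB ha) (ik H iB hw') e

theorem K3 : k (k a w) (k x t) = k (k (k a t) x) (k w t) ∧
    k (k a w) (k x t) = k (k a t) (k (k w t) x) := by
  obtain ⟨cp, cq, cs⟩ := K2 H ha hx hw' ht h1 h2
  obtain ⟨g1, g2, g3⟩ := K1 H ha hx hw' ht h1 h2
  have hax := im ha hx h1
  have hwx := im hw' hx h2.symm
  have iF := ik H ha hw'
  have iA := ik H ha ht
  have iW := ik H hw' ht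
  have iB := ik H hx ht
  have iZ := ik H iA hx
  have iY := ik H iW hx
  have Z1 : k (k a t) x = k (k x t) a := P1 H ha hx ht h1
  have Y1 : k (k w t) x = k (k x t) w := P1 H hw' hx ht h2.symm
  have cAB : Commute (k a t) (k x t) := P2 H ha hx ht h1
  have cWB : Commute (k w t) (k x t) := P2 H hw' hx ht h2.symm
  have cZA : Commute (k (k a t) x) (k a t) := kl H iA hx
  have cZB : Commute (k (k a t) x) (k x t) := by rw [Z1]; exact kl H iB ha
  have cYW : Commute (k (k w t) x) (k w t) := kl H iW hx
  have cYB : Commute (k (k w t) x) (k x t) := by rw [Y1]; exact kl H iB hw'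
  have f1 : k (a * x) w = k a w := by
    rw [kml ha hx hw' h1 (co_k h1.symm h2).symm, k_one hx hw' h2, mul_one]
  have f2 : k (w * x) a = k w a := by
    rw [kml hw' hx ha h2.symm (co_k h2 h1.symm).symm, k_one hx ha h1.symm, mul_one]
  have m1 : k (a * x) t = k a t * k x t * k (k a t) x := P5 H ha hx ht h1
  have m2 : k (w * x) t = k w t * k x t * k (k w t) x := P5 H hw' hx ht h2.symm
  have PQS := e3 H ha hw' ht
  -- centrality
  have pa := z1 H ha hw' ht
  have pw := z2 H ha hw' ht
  have pt := z3 H ha hw' ht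
  have qw := z1 H hw' ha ht
  have qa := z2 H hw' ha ht
  have qt := z3 H hw' ha ht
  have st := z1 H ht ha hw'
  have sa := z2 H ht ha hw'
  have sw := z3 H ht ha hw'
  have iAB := im iA iB cAB
  have iWB := im iW iB cWB
  have cABZ : Commute (k a t * k x t) (k (k a t) x) := (cZA.mul_right cZB).symm
  have cWBY : Commute (k w t * k x t) (k (k w t) x) := (cYW.mul_right cYB).symm
  -- k F (A B Z)
  have r1 : k (k a w) (k a t * k x t * k (k a t) x) = k (k a w) (k x t) * z a w t := by
    have e1 : k (k a w) (k a t * k x t) = k (k a w) (k x t) * z a w t :=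
      kmr iF iA iB cAB (co_k cp pt)
    rw [kmr iF iAB iZ cABZ, k_one iF iZ g1, one_mul, e1]
    rw [e1]
    exact (co_k g1.symm cZB).symm.mul_left (co_k (co_k pa pt) cp)
  have r2 : k (k w a) (k w t * k x t * k (k w t) x) = k (k a w) (k x t) * z w a t := by
    have sw1 : k w a = k a w := k_swap H hw' ha
    have e1 : k (k a w) (k w t * k x t) = k (k a w) (k x t) * z w a t := by
      have e0 : k (k a w) (k w t) = z w a t := by unfold z; rw [sw1]
      rw [kmr iF iW iB cWB (by rw [e0]; exact co_k cq qt), e0]
    rw [sw1, kmr iF iWB iY cWBY, k_one iF iY g2, one_mul, e1]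
    rw [e1]
    exact (co_k g2.symm cYB).symm.mul_left (co_k (co_k qw qt) cq)
  have iS := iz H ht ha hw'
  have SS : k (k a t) (k w t) = z t a w := by
    unfold z; rw [k_swap H ht ha, k_swap H ht hw']
  have r3 : k (k a t * k x t * k (k a t) x) (k w t) = z t a w * k (k (k a t) x) (k w t) := by
    have e1 : k (k a t * k x t) (k w t) = z t a w := by
      rw [kml iA iB iW cAB, k_one iB iW cWB.symm, mul_one, SS]
      rw [SS]
      exact co_k cs st
    rw [kml iAB iZ iW cABZ, e1]
    rw [e1]
    exact co_k (co_k sa st) cs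
  have r4 : k (k a t) (k w t * k x t * k (k w t) x) = k (k a t) (k (k w t) x) * z t a w := by
    have e1 : k (k a t) (k w t * k x t) = z t a w := by
      rw [kmr iA iW iB cWB, k_one iA iB cAB, one_mul, SS]
      rw [SS]
      exact co_k cs st
    rw [kmr iA iWB iY cWBY, e1]
    rw [e1]
    exact co_k (co_k sw st) cs
  have E1 := e3 H hax hw' ht
  have E2 := e3 H ha hwx ht
  have u1 : z (a * x) w t = k (k a w) (k x t) * z a w t := by
    unfold z; rw [f1, m1]; exact r1
  have u2 : z w (a * x) t = z w a t := by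
    unfold z; rw [k_swap H hw' hax, f1, k_swap H ha hw']
  have u3 : z t (a * x) w = z t a w * k (k (k a t) x) (k w t) := by
    unfold z; rw [k_swap H ht hax, m1, k_swap H ht hw', r3, k_swap H ht ha]
    unfold z; rw [k_swap H ht ha, k_swap H ht hw']
  have u4 : z a (w * x) t = z a w t := by
    unfold z; rw [k_swap H ha hwx, f2, k_swap H hw' ha]
  have u5 : z (w * x) a t = k (k a w) (k x t) * z w a t := by
    unfold z; rw [f2, m2]; exact r2
  have u6 : z t a (w * x) = k (k a t) (k (k w t) x) * z t a w := by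
    unfold z; rw [k_swap H ht hwx, m2, k_swap H ht ha, r4]
    unfold z; rw [k_swap H ht ha]
  constructor
  · apply eq_of_mul (ik H iZ iW)
    rw [u1, u2, u3] at E1
    calc k (k a w) (k x t) * k (k (k a t) x) (k w t)
        = k (k a w) (k x t) * (z a w t * z w a t * z t a w) * k (k (k a t) x) (k w t) := by
          rw [PQS, mul_one]
      _ = 1 := by simpa only [mul_assoc] using E1
  · apply eq_of_mul (ik H iA iY)
    rw [u4, u5, u6] at E2
    have c1 : Commute (z a w t) (k (k a w) (k x t)) := co_k (co_k pa pw) (co_k cp pt)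
    have c2 : Commute (z w a t) (k (k a t) (k (k w t) x)) :=
      co_k (co_k qa qt) (co_k (co_k qw qt) cq)
    have c3 : Commute (z a w t) (k (k a t) (k (k w t) x)) :=
      co_k (co_k pa pt) (co_k (co_k pw pt) cp)
    calc k (k a w) (k x t) * k (k a t) (k (k w t) x)
        = k (k a w) (k x t) * k (k a t) (k (k w t) x) * (z a w t * z w a t * z t a w) := by
          rw [PQS, mul_one]
      _ = k (k a w) (k x t) * (k (k a t) (k (k w t) x) * z a w t) * z w a t * z t a w := by
          simp only [mul_assoc]
      _ = k (k a w) (k x t) * (z a w t * k (k a t) (k (k w t) x)) * z w a t * z t a w := by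
          rw [c3.eq]
      _ = (k (k a w) (k x t) * z a w t) * (k (k a t) (k (k w t) x) * z w a t) * z t a w := by
          simp only [mul_assoc]
      _ = (z a w t * k (k a w) (k x t)) * (z w a t * k (k a t) (k (k w t) x)) * z t a w := by
          rw [c1.eq, c2.eq]
      _ = 1 := by simpa only [mul_assoc] using E2

end K

end Pool.Agent.W5h59.Bu
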