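import Mathlib

set_option autoImplicit false
set_option linter.all false

/-!
# Locally finite `2`-groups: extensions, products of normal subgroups, the radical

Adapted from `Pool/Agent/W5h53/BC/Rad.lean` (helper53), which treats locally finite groups.
-/

namespace Pool.Agent.W5h59.Bu

universe u v

/-- locally finite groups -/
def LFn (G : Type u) [Group G] : Prop := ∀ S : Set G, S.Finite → Finite (Subgroup.closure S)

theorem LFn.image {G : Type u} {H : Type v} [Group G] [Group H] (f : G →* H)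
    (hf : Function.Surjective f) (h : LFn G) : LFn H := by
  intro S hS
  have h1 := h (Function.surjInv hf '' S) (hS.image _)
  have h2 : Subgroup.closure S = (Subgroup.closure (Function.surjInv hf '' S)).map f := by
    rw [MonoidHom.map_closure, ← Set.image_comp]
    congr 1
    ext x
    simp [Function.surjInv_eq hf]
  rw [h2]
  have h3 : ((Subgroup.closure (Function.surjInv hf '' S)).map f : Set H).Finite := by
    rw [Subgroup.coe_map]
    exact Set.Finite.image _ (Set.toFinite _)
  exact h3.to_subtype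

theorem LFn.sub {G : Type u} {H : Type v} [Group G] [Group H] (f : G →* H)
    (hf : Function.Injective f) (h : LFn H) : LFn G := by
  intro S hS
  have h1 := h (f '' S) (hS.image _)
  rw [← MonoidHom.map_closure] at h1
  have h3 : (f '' (Subgroup.closure S : Set G)).Finite := by
    rw [← Subgroup.coe_map]
    exact Set.toFinite _
  exact (Set.Finite.of_finite_image h3 hf.injOn).to_subtype

theorem LFn.mono {G : Type u} [Group G] {A B : Subgroup G} (h : A ≤ B) (hB : LFn B) : LFn A :=
  LFn.sub (Subgroup.inclusion h) (Subgroup.inclusion_injective h) hB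

theorem LFn.fin {G : Type u} [Group G] {A : Subgroup G} (hA : LFn A) {S : Set G} (hS : S.Finite)
    (h : S ⊆ A) : Finite (Subgroup.closure S) := by
  have h1 := hA (A.subtype ⁻¹' S) (hS.preimage Subtype.val_injective.injOn)
  have h2 : (Subgroup.closure (A.subtype ⁻¹' S)).map A.subtype = Subgroup.closure S := by
    rw [MonoidHom.map_closure]
    congr 1
    ext x
    constructor
    · rintro ⟨y, hy, rfl⟩
      exact hy
    · intro hx
      exact ⟨⟨x, h hx⟩, hx, rfl⟩
  rw [← h2]
  have h3 : ((Subgroup.closure (A.subtype ⁻¹' S)).map A.subtype : Set G).Finite := by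
    rw [Subgroup.coe_map]
    exact Set.Finite.image _ (Set.toFinite _)
  exact h3.to_subtype

theorem LFn.ext {G : Type u} [Group G] (N : Subgroup G) [N.Normal] (hN : LFn N)
    (hQ : LFn (G ⧸ N)) : LFn G := by
  intro S hS
  obtain ⟨H, hH⟩ : ∃ H : Subgroup G, H = Subgroup.closure S := ⟨_, rfl⟩
  rw [← hH]
  obtain ⟨f, hf⟩ : ∃ f : H →* G ⧸ N, f = (QuotientGroup.mk' N).comp H.subtype := ⟨_, rfl⟩
  have h1 : Finite f.range := by
    have h0 := hQ (QuotientGroup.mk' N '' S) (hS.image _)
    have e : f.range = Subgroup.closure (QuotientGroup.mk' N '' S) := by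
      rw [hf, MonoidHom.range_comp, Subgroup.range_subtype, hH, MonoidHom.map_closure]
    rw [e]
    exact h0
  have h2 : f.ker.FiniteIndex := Subgroup.finiteIndex_ker f
  have h3 : Group.FG H := by
    rw [Group.fg_iff_subgroup_fg, Subgroup.fg_iff]
    exact ⟨S, hH.symm, hS⟩
  have h4 : Group.FG f.ker := Subgroup.fg_of_index_ne_zero f.ker
  have hfa : ∀ x : H, f x = ((x : G) : G ⧸ N) := by
    intro x
    rw [hf]
    rfl
  have hmem : ∀ k : f.ker, ((k : H) : G) ∈ N := by
    intro k
    have h5 : f (k : H) = 1 := k.2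
    rw [hfa (k : H)] at h5
    exact (QuotientGroup.eq_one_iff ((k : H) : G)).1 h5
  obtain ⟨g, hg⟩ : ∃ g : f.ker →* N, ∀ k, ((g k : N) : G) = ((k : H) : G) :=
    ⟨{ toFun := fun k => ⟨((k : H) : G), hmem k⟩
       map_one' := rfl
       map_mul' := fun _ _ => rfl }, fun _ => rfl⟩
  have hginj : Function.Injective g := by
    intro x y hxy
    have h6 : ((g x : N) : G) = ((g y : N) : G) := by rw [hxy]
    rw [hg, hg] at h6
    exact Subtype.ext (Subtype.ext h6)
  have h8 : (⊤ : Subgroup f.ker).FG := h4.out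
  obtain ⟨T, hT⟩ := h8
  have h9 : Finite g.range := by
    rw [MonoidHom.range_eq_map, ← hT, MonoidHom.map_closure]
    exact hN _ (T.finite_toSet.image g)
  have h10 : Finite f.ker := by
    refine Finite.of_injective (fun k => (⟨g k, ⟨k, rfl⟩⟩ : g.range)) fun x y hxy => ?_
    exact hginj (congrArg Subtype.val hxy)
  have h11 : Finite (H ⧸ f.ker) := Subgroup.finite_quotient_of_finiteIndex
  exact Finite.of_equiv _ (Subgroup.groupEquivQuotientProdSubgroup (s := f.ker)).symm

/-- locally finite `2`-groups -/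
def LF2 (G : Type u) [Group G] : Prop := LFn G ∧ IsPGroup 2 G

theorem LF2.image {G : Type u} {H : Type v} [Group G] [Group H] (f : G →* H)
    (hf : Function.Surjective f) (h : LF2 G) : LF2 H := ⟨h.1.image f hf, h.2.of_surjective f hf⟩

theorem LF2.sub {G : Type u} {H : Type v} [Group G] [Group H] (f : G →* H)
    (hf : Function.Injective f) (h : LF2 H) : LF2 G := ⟨h.1.sub f hf, h.2.of_injective f hf⟩

theorem LF2.mono {G : Type u} [Group G] {A B : Subgroup G} (h : A ≤ B) (hB : LF2 B) : LF2 A :=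
  LF2.sub (Subgroup.inclusion h) (Subgroup.inclusion_injective h) hB

theorem LF2.ext {G : Type u} [Group G] (N : Subgroup G) [N.Normal] (hN : LF2 N)
    (hQ : LF2 (G ⧸ N)) : LF2 G := by
  refine ⟨hN.1.ext N hQ.1, ?_⟩
  intro g
  obtain ⟨m, hm⟩ := hQ.2 (g : G ⧸ N)
  have h1 : g ^ 2 ^ m ∈ N := by
    rw [← QuotientGroup.eq_one_iff, QuotientGroup.mk_pow]
    exact hm
  obtain ⟨l, hl⟩ := hN.2 ⟨g ^ 2 ^ m, h1⟩
  refine ⟨m + l, ?_⟩
  rw [pow_add, pow_mul]
  have := congrArg Subtype.val hl
  simpa using this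

theorem LF2.sup {G : Type u} [Group G] {A B : Subgroup G} [A.Normal] [B.Normal] (hA : LF2 A)
    (hB : LF2 B) : LF2 ↥(A ⊔ B) := by
  have hn : (A.subgroupOf (A ⊔ B)).Normal := by infer_instance
  refine LF2.ext (A.subgroupOf (A ⊔ B)) ?_ ?_
  · refine LF2.sub (H := ↥A)
      { toFun := fun x => ⟨(x : ↥(A ⊔ B)), x.2⟩
        map_one' := rfl
        map_mul' := fun _ _ => rfl } ?_ hA
    intro x y hxy
    have : ((x : ↥(A ⊔ B)) : G) = ((y : ↥(A ⊔ B)) : G) :=
      congrArg (fun z : ↥A => (z : G)) hxy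
    exact Subtype.ext (Subtype.ext this)
  · refine LF2.image (G := ↥B) ((QuotientGroup.mk' (A.subgroupOf (A ⊔ B))).comp
      (Subgroup.inclusion (le_sup_right : B ≤ A ⊔ B))) ?_ hB
    intro q
    obtain ⟨g, rfl⟩ := QuotientGroup.mk'_surjective _ q
    obtain ⟨g, hg⟩ := g
    obtain ⟨a, ha, b, hb, hab⟩ := (Subgroup.mem_sup_of_normal_left (s := A) (t := B)).mp hg
    refine ⟨⟨b, hb⟩, ?_⟩
    simp only [MonoidHom.comp_apply]
    rw [QuotientGroup.mk'_apply, QuotientGroup.mk'_apply, QuotientGroup.eq]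
    rw [Subgroup.mem_subgroupOf]
    simp only [Subgroup.coe_mul, Subgroup.coe_inv, Subgroup.coe_inclusion]
    rw [← hab]
    have := Subgroup.Normal.conj_mem inferInstance a ha b⁻¹
    simpa [mul_assoc] using this

theorem LF2.bot {G : Type u} [Group G] : LF2 (⊥ : Subgroup G) := by
  refine ⟨fun S hS => inferInstance, fun g => ⟨0, ?_⟩⟩
  rw [pow_zero, pow_one]
  exact Subsingleton.elim _ _

/-- the locally finite `2`-radical -/
def rad (G : Type u) [Group G] : Subgroup G where
  carrier := {g | ∃ M : Subgroup G, M.Normal ∧ LF2 M ∧ g ∈ M}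
  one_mem' := ⟨⊥, inferInstance, LF2.bot, Subgroup.mem_bot.2 rfl⟩
  mul_mem' := by
    rintro a b ⟨M, hM, h1, h2⟩ ⟨N, hN, h3, h4⟩
    haveI := hM
    haveI := hN
    exact ⟨M ⊔ N, inferInstance, LF2.sup h1 h3, mul_mem (Subgroup.mem_sup_left h2)
      (Subgroup.mem_sup_right h4)⟩
  inv_mem' := by
    rintro a ⟨M, hM, h1, h2⟩
    exact ⟨M, hM, h1, inv_mem h2⟩

theorem le_rad {G : Type u} [Group G] {M : Subgroup G} (hM : M.Normal) (h : LF2 M) :
    M ≤ rad G := fun g hg => ⟨M, hM, h, hg⟩

instance rad_normal (G : Type u) [Group G] : (rad G).Normal where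
  conj_mem := by
    rintro a ⟨M, hM, h1, h2⟩ g
    exact ⟨M, hM, h1, hM.conj_mem a h2 g⟩

theorem rad_cover {G : Type u} [Group G] {S : Set G} (hS : S.Finite) (h : S ⊆ rad G) :
    ∃ M : Subgroup G, M.Normal ∧ LF2 M ∧ S ⊆ M := by
  induction S, hS using Set.Finite.induction_on with
  | empty => exact ⟨⊥, inferInstance, LF2.bot, Set.empty_subset _⟩
  | @insert a S ha hS ih =>
    obtain ⟨M, hM, h1, h2⟩ := ih ((Set.subset_insert _ _).trans h)
    obtain ⟨N, hN, h3, h4⟩ := h (Set.mem_insert _ _)
    haveI := hM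
    haveI := hN
    refine ⟨N ⊔ M, inferInstance, LF2.sup h3 h1, ?_⟩
    rintro x (rfl | hx)
    · exact Subgroup.mem_sup_left h4
    · exact Subgroup.mem_sup_right (h2 hx)

theorem rad_lf (G : Type u) [Group G] : LF2 (rad G) := by
  constructor
  · intro S hS
    obtain ⟨M, hM, h1, h2⟩ := rad_cover (hS.image (rad G).subtype) (by
      rintro x ⟨y, hy, rfl⟩
      exact y.2)
    have h3 : Finite (Subgroup.closure ((rad G).subtype '' S)) := h1.1.fin (hS.image _) h2
    rw [← MonoidHom.map_closure] at h3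
    have h4 : ((rad G).subtype '' (Subgroup.closure S : Set (rad G))).Finite := by
      rw [← Subgroup.coe_map]
      exact Set.toFinite _
    exact (Set.Finite.of_finite_image h4 Subtype.val_injective.injOn).to_subtype
  · rintro ⟨g, M, hM, h1, h2⟩
    obtain ⟨m, hm⟩ := h1.2 ⟨g, h2⟩
    refine ⟨m, ?_⟩
    apply Subtype.ext
    have := congrArg Subtype.val hm
    simpa using this

/-- the quotient by the radical has trivial radical -/
theorem rad_quot (G : Type u) [Group G] : rad (G ⧸ rad G) = ⊥ := by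
  rw [eq_bot_iff]
  rintro x ⟨M, hM, h1, h2⟩
  obtain ⟨g, rfl⟩ := QuotientGroup.mk'_surjective _ x
  set N := M.comap (QuotientGroup.mk' (rad G)) with hN
  have hNn : N.Normal := hM.comap _
  have h3 : LF2 N := by
    haveI : ((rad G).subgroupOf N).Normal := inferInstance
    refine LF2.ext ((rad G).subgroupOf N) ?_ ?_
    · refine LF2.sub (H := rad G)
        { toFun := fun x => ⟨((x : N) : G), Subgroup.mem_subgroupOf.1 x.2⟩
          map_one' := rfl
          map_mul' := fun _ _ => rfl } ?_ (rad_lf G)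
      intro x y hxy
      exact Subtype.ext (Subtype.ext (congrArg (fun z : rad G => (z : G)) hxy))
    · obtain ⟨f, hf⟩ : ∃ f : N →* M, ∀ x : N, ((f x : M) : G ⧸ rad G) = ((x : G) : G ⧸ rad G) :=
        ⟨{ toFun := fun x => ⟨((x : G) : G ⧸ rad G), x.2⟩
           map_one' := rfl
           map_mul' := fun _ _ => rfl }, fun _ => rfl⟩
      have hk : (rad G).subgroupOf N ≤ f.ker := by
        intro x hx
        rw [MonoidHom.mem_ker]
        apply Subtype.ext
        rw [hf]
        exact (QuotientGroup.eq_one_iff _).2 (Subgroup.mem_subgroupOf.1 hx)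
      refine LF2.sub (H := M) (QuotientGroup.lift _ f hk) ?_ h1
      rw [← MonoidHom.ker_eq_bot_iff, eq_bot_iff]
      intro q hq
      obtain ⟨x, rfl⟩ := QuotientGroup.mk'_surjective _ q
      rw [MonoidHom.mem_ker, QuotientGroup.mk'_apply, QuotientGroup.lift_mk] at hq
      have h4 := congrArg (fun z : M => (z : G ⧸ rad G)) hq
      simp only [hf] at h4
      rw [Subgroup.mem_bot, QuotientGroup.mk'_apply, QuotientGroup.eq_one_iff,
        Subgroup.mem_subgroupOf]
      exact (QuotientGroup.eq_one_iff _).1 h4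
  have h4 : g ∈ rad G := le_rad hNn h3 h2
  rw [Subgroup.mem_bot]
  exact (QuotientGroup.eq_one_iff _).2 h4

/-- abelian groups of exponent two are locally finite -/
theorem lf_of_comm {A : Type u} [Group A] (hc : ∀ x y : A, x * y = y * x)
    (h : ∀ x : A, x * x = 1) : LF2 A := by
  letI : CommGroup A := { ‹Group A› with mul_comm := hc }
  refine ⟨?_, fun g => ⟨1, by rw [pow_one, sq]; exact h g⟩⟩
  intro S hS
  induction S, hS using Set.Finite.induction_on with
  | empty => rw [Subgroup.closure_empty]; infer_instance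
  | @insert a S ha hS ih =>
    have h1 : (Subgroup.closure (insert a S) : Set A) ⊆
        (fun z : A × A => z.1 * z.2) '' (((fun i : ℕ => a ^ i) '' Set.Iio 2) ×ˢ
          (Subgroup.closure S : Set A)) := by
      intro x hx
      rw [SetLike.mem_coe, Set.insert_eq, Subgroup.closure_union, Subgroup.mem_sup] at hx
      obtain ⟨y, hy, z, hz, rfl⟩ := hx
      rw [Subgroup.mem_closure_singleton] at hy
      obtain ⟨m, rfl⟩ := hy
      refine ⟨(a ^ m, z), ⟨⟨(m % (2 : ℕ)).toNat, ?_, ?_⟩, hz⟩, rfl⟩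
      · have h2 := Int.emod_lt_of_pos m (show (0 : ℤ) < (2 : ℕ) by norm_num)
        have h3 := Int.emod_nonneg m (show ((2 : ℕ) : ℤ) ≠ 0 by norm_num)
        rw [Set.mem_Iio]
        omega
      · have h3 := Int.emod_nonneg m (show ((2 : ℕ) : ℤ) ≠ 0 by norm_num)
        show a ^ (m % (2 : ℕ)).toNat = a ^ m
        rw [← zpow_natCast, Int.toNat_of_nonneg h3]
        conv_rhs => rw [← Int.emod_add_mul_ediv m (2 : ℕ)]
        rw [zpow_add, zpow_mul, zpow_natCast, sq, h, one_zpow, mul_one]
    refine Set.Finite.to_subtype (Set.Finite.subset ?_ h1)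
    exact Set.Finite.image _ (((Set.finite_Iio 2).image _).prod (Set.toFinite _))

/-- groups generated by commuting involutions -/
theorem lf_of_gen {A : Type u} [Group A] (D : Set A) (hD : Subgroup.closure D = ⊤)
    (hc : ∀ x ∈ D, ∀ y ∈ D, x * y = y * x) (h : ∀ x ∈ D, x * x = 1) : LF2 A := by
  have hcc : ∀ x y : A, x * y = y * x := by
    intro x y
    have hx : x ∈ Subgroup.closure D := hD ▸ Subgroup.mem_top x
    have hy : y ∈ Subgroup.closure D := hD ▸ Subgroup.mem_top y
    letI := Subgroup.closureCommGroupOfComm hc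
    have := mul_comm (⟨x, hx⟩ : Subgroup.closure D) ⟨y, hy⟩
    exact congrArg Subtype.val this
  apply lf_of_comm hcc
  intro x
  have hx : x ∈ Subgroup.closure D := hD ▸ Subgroup.mem_top x
  induction hx using Subgroup.closure_induction with
  | mem x hx => exact h x hx
  | one => exact one_mul 1
  | mul x y _ _ h1 h2 =>
    rw [mul_assoc, hcc y, mul_assoc x y y, h2, mul_one, h1]
  | inv x _ h1 => rw [← mul_inv_rev, h1, inv_one]

/-- an involution which commutes with its conjugates is in the radical -/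
theorem mem_rad {G : Type u} [Group G] (a : G) (ha : a * a = 1)
    (h : ∀ y : G, Commute a (y * a * y⁻¹)) : a ∈ rad G := by
  refine le_rad (M := Subgroup.normalClosure {a}) inferInstance ?_ (Subgroup.subset_normalClosure rfl)
  have hcc : ∀ x ∈ Group.conjugatesOfSet {a}, ∀ y ∈ Group.conjugatesOfSet {a}, x * y = y * x := by
    intro x hx y hy
    rw [Group.mem_conjugatesOfSet_iff] at hx hy
    obtain ⟨a', ha', hx⟩ := hx
    obtain ⟨a'', ha'', hy⟩ := hy
    rw [Set.mem_singleton_iff] at ha' ha''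
    rw [ha'] at hx
    rw [ha''] at hy
    obtain ⟨g, rfl⟩ := isConj_iff.1 hx
    obtain ⟨k, rfl⟩ := isConj_iff.1 hy
    have h1 : Commute a (g⁻¹ * k * a * (g⁻¹ * k)⁻¹) := h (g⁻¹ * k)
    have h2 := h1.eq
    have h3 : g * a * g⁻¹ * (k * a * k⁻¹) = g * (a * (g⁻¹ * k * a * (g⁻¹ * k)⁻¹)) * g⁻¹ := by group
    rw [h3, h2]
    group
  have hsq : ∀ x ∈ Group.conjugatesOfSet {a}, x * x = 1 := by
    intro x hx
    rw [Group.mem_conjugatesOfSet_iff] at hx
    obtain ⟨a', ha', hx⟩ := hx
    rw [Set.mem_singleton_iff] at ha'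
    rw [ha'] at hx
    obtain ⟨g, rfl⟩ := isConj_iff.1 hx
    rw [show g * a * g⁻¹ * (g * a * g⁻¹) = g * (a * a) * g⁻¹ by group, ha]
    group
  have hin : ∀ x ∈ Group.conjugatesOfSet {a}, x ∈ Subgroup.normalClosure {a} :=
    fun x hx => Subgroup.subset_closure hx
  refine lf_of_gen (A := Subgroup.normalClosure {a})
    ((Subgroup.normalClosure {a}).subtype ⁻¹' Group.conjugatesOfSet {a}) ?_ ?_ ?_
  · rw [eq_top_iff]
    rintro ⟨x, hx⟩ -
    have hx' : x ∈ Subgroup.closure (Group.conjugatesOfSet {a}) := hx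
    have e : Subgroup.closure (Group.conjugatesOfSet {a}) =
        (Subgroup.closure ((Subgroup.normalClosure {a}).subtype ⁻¹'
          Group.conjugatesOfSet {a})).map (Subgroup.normalClosure {a}).subtype := by
      rw [MonoidHom.map_closure]
      congr 1
      ext y
      constructor
      · intro hy
        exact ⟨⟨y, hin y hy⟩, hy, rfl⟩
      · rintro ⟨z, hz, rfl⟩
        exact hz
    rw [e] at hx'
    obtain ⟨y, hy, hyx⟩ := hx'
    have : y = ⟨x, hx⟩ := Subtype.ext hyx
    rw [← this]
    exact hy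
  · intro x hx y hy
    exact Subtype.ext (hcc _ hx _ hy)
  · intro x hx
    exact Subtype.ext (hsq _ hx)

end Pool.Agent.W5h59.Bu
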