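import Pool.Agent.W5h59.Bu.Th
import Pool.Agent.W5h59.Bu.Rad

set_option autoImplicit false
set_option linter.all false

/-!
# Local finiteness
-/

namespace Pool.Agent.W5h59.Bu

universe u v

/-- the condition passes to subgroups -/
theorem E3.sub {G : Type u} {K : Type v} [Group G] [Group K] (H : E3 G) (f : K →* G)
    (hf : Function.Injective f) : E3 K := by
  intro x y z hx hy hz
  apply hf
  simp only [map_mul, map_one]
  apply H
  · rw [← map_mul, hx, map_one]
  · rw [← map_mul, hy, map_one]
  · rw [← map_mul, hz, map_one]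

theorem map_k {G : Type u} {K : Type v} [Group G] [Group K] (f : K →* G) (x y : K) :
    f (k x y) = k (f x) (f y) := by
  unfold k; simp only [map_mul]

theorem map_z {G : Type u} {K : Type v} [Group G] [Group K] (f : K →* G) (x y w : K) :
    f (z x y w) = z (f x) (f y) (f w) := by
  unfold z; simp only [map_k]

/-- strong elements of subgroups -/
theorem St.sub {G : Type u} {K : Type v} [Group G] [Group K] (f : K →* G)
    (hf : Function.Injective f) {a : K} (h : St (f a)) : St a := by
  refine ⟨hf (by rw [map_mul, map_one]; exact h.1), fun u v hu hv => hf ?_⟩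
  rw [map_z, map_one]
  apply h.2
  · rw [← map_mul, hu, map_one]
  · rw [← map_mul, hv, map_one]

/-- the set of strong elements is normal -/
theorem St.conj {G : Type u} [Group G] {a : G} (h : St a) (g : G) : St (g * a * g⁻¹) := by
  have e : a = (MulAut.conj g⁻¹).toMonoidHom (g * a * g⁻¹) := by
    simp [MulAut.conj_apply, mul_assoc]
  rw [e] at h
  exact St.sub _ (MulAut.conj g⁻¹).injective h

variable {G : Type u} [Group G]

theorem Th.mono {X : G → Prop} {a : G} {m n : ℕ} (h : Th X a n) (hm : m ≤ n) : Th X a m :=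
  fun l hl hlm => h l hl (hlm.trans hm)

theorem act_prod (l : List G) (h : ∀ u ∈ l, u * u = 1) (a : G) :
    act a l = l.prod⁻¹ * a * l.prod := by
  induction l generalizing a with
  | nil => simp [act]
  | cons u l ih =>
    have hu : u⁻¹ = u := iinv (h u (by simp))
    show act (u * a * u) l = _
    rw [ih (fun v hv => h v (List.mem_cons_of_mem _ hv)), List.prod_cons, mul_inv_rev, hu]
    simp only [mul_assoc]

/-- products of letters -/
theorem exists_list (S : Finset G) (hS : ∀ u ∈ S, u * u = 1)
    (hG : Subgroup.closure (S : Set G) = ⊤) (g : G) :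
    ∃ l : List G, (∀ u ∈ l, u ∈ S) ∧ l.prod = g := by
  have hg : g ∈ Subgroup.closure (S : Set G) := hG ▸ Subgroup.mem_top g
  induction hg using Subgroup.closure_induction with
  | mem x hx => exact ⟨[x], by simpa using hx, by simp⟩
  | one => exact ⟨[], by simp, rfl⟩
  | mul x y _ _ h1 h2 =>
    obtain ⟨l1, h1, rfl⟩ := h1
    obtain ⟨l2, h2, rfl⟩ := h2
    refine ⟨l1 ++ l2, ?_, by rw [List.prod_append]⟩
    intro u hu
    rcases List.mem_append.1 hu with hu | hu
    · exact h1 u hu
    · exact h2 u hu
  | inv x _ h1 =>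
    obtain ⟨l1, h1, rfl⟩ := h1
    refine ⟨l1.reverse, fun u hu => h1 u (List.mem_reverse.1 hu), ?_⟩
    have : ∀ l : List G, (∀ u ∈ l, u ∈ S) → l.reverse.prod = l.prod⁻¹ := by
      intro l hl
      induction l with
      | nil => simp
      | cons u l ih =>
        rw [List.reverse_cons, List.prod_append, ih fun v hv => hl v (List.mem_cons_of_mem _ hv),
          List.prod_cons, List.prod_cons, mul_inv_rev, List.prod_nil, mul_one,
          iinv (hS u (hl u (by simp)))]
    exact this _ h1

theorem rad_of_thick (H : E3 G) (S : Finset G) (hS : ∀ u ∈ S, St u)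
    (hG : Subgroup.closure (S : Set G) = ⊤) {a : G} (ha : St a) (hT : Th St a S.card) :
    a ∈ rad G := by
  have hb := beta H S hS ha (fun l hl hn => hT l (fun u hu => hS u (hl u hu)) hn)
  apply mem_rad a ha.1
  intro y
  obtain ⟨l, hl, hy⟩ := exists_list S (fun u hu => (hS u hu).1) hG y⁻¹
  have h1 := hb l.length l hl le_rfl
  rwa [act_prod l (fun u hu => (hS u (hl u hu)).1), hy, inv_inv] at h1

theorem rad_step (H : E3 G) (S : Finset G) (hS : ∀ u ∈ S, St u)
    (hG : Subgroup.closure (S : Set G) = ⊤) {a : G} (ha : St a)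
    (hk : ∀ b ∈ S, k a b ∈ rad G) : a ∈ rad G := by
  have h1 : ((a : G) : G ⧸ rad G) ∈ rad (G ⧸ rad G) := by
    apply mem_rad
    · rw [← QuotientGroup.mk_mul, ha.1, QuotientGroup.mk_one]
    · have hc : ∀ y : G, Commute ((a : G) : G ⧸ rad G) ((y : G) : G ⧸ rad G) := by
        intro y
        have hy : y ∈ Subgroup.closure (S : Set G) := hG ▸ Subgroup.mem_top y
        induction hy using Subgroup.closure_induction with
        | mem x hx =>
          have h2 := hk x hx
          rw [← QuotientGroup.eq_one_iff] at h2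
          have h3 : ((k a x : G) : G ⧸ rad G) = ((a : G) : G ⧸ rad G) * x * (a * x) := rfl
          rw [h3] at h2
          apply co_of_im _ _ h2
          · rw [← QuotientGroup.mk_mul, ha.1, QuotientGroup.mk_one]
          · rw [← QuotientGroup.mk_mul, (hS x hx).1, QuotientGroup.mk_one]
        | one => exact Commute.one_right _
        | mul x y _ _ h1 h2 => exact h1.mul_right h2
        | inv x _ h1 => exact h1.inv_right
      intro y
      obtain ⟨y, rfl⟩ := QuotientGroup.mk'_surjective _ y
      have := hc y
      rw [QuotientGroup.mk'_apply]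
      rw [show (y : G ⧸ rad G) * a * (y : G ⧸ rad G)⁻¹ = a by
        rw [← this.eq, mul_assoc, mul_inv_cancel, mul_one]]
  rw [rad_quot, Subgroup.mem_bot, QuotientGroup.eq_one_iff] at h1
  exact h1

/-- finitely many strong elements generate a finite group -/
theorem fg_case (H : E3 G) (S : Finset G) (hS : ∀ u ∈ S, St u)
    (hG : Subgroup.closure (S : Set G) = ⊤) : LF2 G := by
  have key : ∀ d n : ℕ, S.card ≤ n + d → ∀ a : G, St a → Th St a n → a ∈ rad G := by
    intro d
    induction d with
    | zero =>
      intro n hn a ha hT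
      exact rad_of_thick H S hS hG ha (hT.mono hn)
    | succ d ih =>
      intro n hn a ha hT
      apply rad_step H S hS hG ha
      intro b hb
      exact ih (n + 1) (by omega) _ (St.k H ha.1 (hS b hb).1) (thick H ha (hS b hb) hT)
  have h1 : ∀ a ∈ S, a ∈ rad G := by
    intro a ha
    apply key S.card 0 (by omega) a (hS a ha)
    intro l _ hl
    have : l = [] := List.length_eq_zero_iff.1 (by omega)
    rw [this]
    exact Commute.refl _
  have h2 : rad G = ⊤ := by
    rw [eq_top_iff, ← hG, Subgroup.closure_le]
    exact h1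
  have h3 := rad_lf G
  rw [h2] at h3
  exact h3.sub (Subgroup.topEquiv (G := G)).symm.toMonoidHom (Subgroup.topEquiv (G := G)).symm.injective

/-- the subgroup generated by the strong elements -/
def NS (G : Type u) [Group G] : Subgroup G := Subgroup.closure {a | St a}

instance NS_normal (G : Type u) [Group G] : (NS G).Normal := by
  constructor
  intro n hn g
  unfold NS at hn ⊢
  induction hn using Subgroup.closure_induction with
  | mem x hx => exact Subgroup.subset_closure (St.conj hx g)
  | one => rw [mul_one, mul_inv_cancel]; exact one_mem _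
  | mul x y _ _ h1 h2 =>
    rw [show g * (x * y) * g⁻¹ = (g * x * g⁻¹) * (g * y * g⁻¹) by group]
    exact mul_mem h1 h2
  | inv x _ h1 =>
    rw [show g * x⁻¹ * g⁻¹ = (g * x * g⁻¹)⁻¹ by group]
    exact inv_mem h1

/-- finite support of elements of closures -/
theorem closure_fin {D : Set G} {x : G} (hx : x ∈ Subgroup.closure D) :
    ∃ S : Finset G, (S : Set G) ⊆ D ∧ x ∈ Subgroup.closure (S : Set G) := by
  classical
  induction hx using Subgroup.closure_induction with
  | mem x hx => exact ⟨{x}, by simpa using hx, Subgroup.subset_closure (by simp)⟩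
  | one => exact ⟨∅, by simp, one_mem _⟩
  | mul x y _ _ h1 h2 =>
    obtain ⟨S1, a1, b1⟩ := h1
    obtain ⟨S2, a2, b2⟩ := h2
    refine ⟨S1 ∪ S2, by rw [Finset.coe_union]; exact Set.union_subset a1 a2, ?_⟩
    rw [Finset.coe_union]
    exact mul_mem (Subgroup.closure_mono Set.subset_union_left b1)
      (Subgroup.closure_mono Set.subset_union_right b2)
  | inv x _ h1 =>
    obtain ⟨S1, a1, b1⟩ := h1
    exact ⟨S1, a1, inv_mem b1⟩

theorem closure_fin_set {D : Set G} {F : Set G} (hF : F.Finite) (hx : F ⊆ Subgroup.closure D) :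
    ∃ S : Finset G, (S : Set G) ⊆ D ∧ F ⊆ Subgroup.closure (S : Set G) := by
  classical
  induction F, hF using Set.Finite.induction_on with
  | empty => exact ⟨∅, by simp, by simp⟩
  | @insert a F _ _ ih =>
    obtain ⟨S1, a1, b1⟩ := ih ((Set.subset_insert _ _).trans hx)
    obtain ⟨S2, a2, b2⟩ := closure_fin (hx (Set.mem_insert _ _))
    refine ⟨S1 ∪ S2, by rw [Finset.coe_union]; exact Set.union_subset a1 a2, ?_⟩
    rw [Finset.coe_union]
    rintro x (rfl | hx)
    · exact Subgroup.closure_mono Set.subset_union_right b2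
    · exact Subgroup.closure_mono Set.subset_union_left (b1 hx)

theorem closure_case (H : E3 G) (S : Finset G) (hS : (S : Set G) ⊆ {a | St a}) :
    LF2 (Subgroup.closure (S : Set G)) := by
  classical
  obtain ⟨K, hK⟩ : ∃ K, K = Subgroup.closure (S : Set G) := ⟨_, rfl⟩
  rw [← hK]
  have hSK : ∀ s ∈ S, s ∈ K := fun s hs => hK ▸ Subgroup.subset_closure hs
  obtain ⟨S', hS'⟩ : ∃ S' : Finset K, (S' : Set K) = K.subtype ⁻¹' (S : Set G) := by
    have : (K.subtype ⁻¹' (S : Set G)).Finite :=
      S.finite_toSet.preimage Subtype.val_injective.injOn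
    exact ⟨this.toFinset, this.coe_toFinset⟩
  apply fg_case (H.sub K.subtype K.subtype_injective) S'
  · intro u hu
    have hu' : u ∈ (S' : Set K) := hu
    rw [hS'] at hu'
    exact St.sub K.subtype K.subtype_injective (hS hu')
  · rw [hS', eq_top_iff]
    rintro ⟨x, hx⟩ -
    have hx' : x ∈ Subgroup.closure (S : Set G) := hK ▸ hx
    have e : Subgroup.closure (S : Set G) =
        (Subgroup.closure (K.subtype ⁻¹' (S : Set G))).map K.subtype := by
      rw [MonoidHom.map_closure]
      congr 1
      ext y
      constructor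
      · intro hy
        exact ⟨⟨y, hSK y hy⟩, hy, rfl⟩
      · rintro ⟨z, hz, rfl⟩
        exact hz
    rw [e] at hx'
    obtain ⟨y, hy, hyx⟩ := hx'
    have : y = ⟨x, hx⟩ := Subtype.ext hyx
    rw [← this]
    exact hy

/-- a subgroup all of whose finite subsets lie in locally finite `2`-subgroups -/
theorem lf2_of_cover (K : Subgroup G) (h : ∀ F : Set G, F.Finite → F ⊆ K →
    ∃ M : Subgroup G, LF2 M ∧ F ⊆ M) : LF2 K := by
  constructor
  · intro F hF
    obtain ⟨M, h1, h2⟩ := h (K.subtype '' F) (hF.image _) (by
      rintro x ⟨y, hy, rfl⟩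
      exact y.2)
    have h3 : Finite (Subgroup.closure (K.subtype '' F)) := h1.1.fin (hF.image _) h2
    rw [← MonoidHom.map_closure] at h3
    have h4 : (K.subtype '' (Subgroup.closure F : Set K)).Finite := by
      rw [← Subgroup.coe_map]
      exact Set.toFinite _
    exact (Set.Finite.of_finite_image h4 Subtype.val_injective.injOn).to_subtype
  · rintro ⟨g, hg⟩
    obtain ⟨M, h1, h2⟩ := h {g} (Set.finite_singleton g) (by simpa using hg)
    obtain ⟨m, hm⟩ := h1.2 ⟨g, h2 rfl⟩
    refine ⟨m, ?_⟩
    apply Subtype.ext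
    have := congrArg Subtype.val hm
    simpa using this

theorem NS_lf (H : E3 G) : LF2 (NS G) := by
  apply lf2_of_cover
  intro F hF hFN
  obtain ⟨S, h1, h2⟩ := closure_fin_set hF hFN
  exact ⟨Subgroup.closure (S : Set G), closure_case H S h1, h2⟩

/-- the subgroup generated by the involutions -/
def TT (G : Type u) [Group G] : Subgroup G := Subgroup.closure {a | a * a = 1}

instance TT_normal (G : Type u) [Group G] : (TT G).Normal := by
  constructor
  intro n hn g
  unfold TT at hn ⊢
  induction hn using Subgroup.closure_induction with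
  | mem x hx =>
    apply Subgroup.subset_closure
    show g * x * g⁻¹ * (g * x * g⁻¹) = 1
    have : x * x = 1 := hx
    rw [show g * x * g⁻¹ * (g * x * g⁻¹) = g * (x * x) * g⁻¹ by group, this, mul_one,
      mul_inv_cancel]
  | one => rw [mul_one, mul_inv_cancel]; exact one_mem _
  | mul x y _ _ h1 h2 =>
    rw [show g * (x * y) * g⁻¹ = (g * x * g⁻¹) * (g * y * g⁻¹) by group]
    exact mul_mem h1 h2
  | inv x _ h1 =>
    rw [show g * x⁻¹ * g⁻¹ = (g * x * g⁻¹)⁻¹ by group]
    exact inv_mem h1

/-- the subgroup generated by the involutions is a locally finite `2`-group -/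
theorem TT_lf (H : E3 G) : LF2 (TT G) := by
  have hN : ((NS G).subgroupOf (TT G)).Normal := inferInstance
  refine LF2.ext ((NS G).subgroupOf (TT G)) ?_ ?_
  · refine LF2.sub (H := NS G)
      { toFun := fun x => ⟨((x : TT G) : G), Subgroup.mem_subgroupOf.1 x.2⟩
        map_one' := rfl
        map_mul' := fun _ _ => rfl } ?_ (NS_lf H)
    intro x y hxy
    exact Subtype.ext (Subtype.ext (congrArg (fun z : NS G => (z : G)) hxy))
  · refine lf_of_gen (A := TT G ⧸ (NS G).subgroupOf (TT G))
      ((QuotientGroup.mk' _) '' {x : TT G | (x : G) * x = 1}) ?_ ?_ ?_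
    · rw [← MonoidHom.map_closure]
      have e : Subgroup.closure {x : TT G | (x : G) * x = 1} = ⊤ := by
        rw [eq_top_iff]
        rintro ⟨x, hx⟩ -
        have hx' : x ∈ Subgroup.closure {a : G | a * a = 1} := hx
        have e : Subgroup.closure {a : G | a * a = 1} =
            (Subgroup.closure {x : TT G | (x : G) * x = 1}).map (TT G).subtype := by
          rw [MonoidHom.map_closure]
          congr 1
          ext y
          constructor
          · intro hy
            exact ⟨⟨y, Subgroup.subset_closure hy⟩, hy, rfl⟩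
          · rintro ⟨z, hz, rfl⟩
            exact hz
        rw [e] at hx'
        obtain ⟨y, hy, hyx⟩ := hx'
        have : y = ⟨x, hx⟩ := Subtype.ext hyx
        rw [← this]
        exact hy
      rw [e, ← MonoidHom.range_eq_map, MonoidHom.range_eq_top]
      exact QuotientGroup.mk'_surjective _
    · rintro _ ⟨x, hx, rfl⟩ _ ⟨y, hy, rfl⟩
      have hx' : (x : G) * x = 1 := hx
      have hy' : (y : G) * y = 1 := hy
      rw [← map_mul, ← map_mul, QuotientGroup.mk'_apply, QuotientGroup.mk'_apply, QuotientGroup.eq,
        Subgroup.mem_subgroupOf]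
      simp only [Subgroup.coe_mul, Subgroup.coe_inv, mul_inv_rev, iinv hx', iinv hy']
      rw [show (y : G) * x * (y * x) = k (y : G) x from rfl]
      exact Subgroup.subset_closure (St.k H hy' hx')
    · rintro _ ⟨x, hx, rfl⟩
      have hx' : (x : G) * x = 1 := hx
      have : x * x = 1 := Subtype.ext hx'
      rw [← map_mul, this, map_one]

/-- local finiteness from exponent `m` to exponent `2 m` -/
theorem main_two (H : E3 G) {m : ℕ} (hG : ∀ x : G, x ^ (2 * m) = 1)
    (hm : ∀ (K : Type u) [Group K], (∀ x : K, x ^ m = 1) → LFn K) : LFn G := by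
  refine LFn.ext (TT G) (TT_lf H).1 (hm _ ?_)
  intro x
  obtain ⟨x, rfl⟩ := QuotientGroup.mk'_surjective _ x
  rw [← map_pow, QuotientGroup.mk'_apply, QuotientGroup.eq_one_iff]
  apply Subgroup.subset_closure
  show x ^ m * x ^ m = 1
  rw [← pow_add, ← two_mul]
  exact hG x

end Pool.Agent.W5h59.Bu
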