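import Pool.Agent.W5h59.Bu.A

set_option autoImplicit false
set_option linter.all false

namespace Pool.Agent.W5h59.Bu

universe u

variable {G : Type u} [Group G]

/-- strong elements -/
def St (a : G) : Prop := a * a = 1 ∧ ∀ u v : G, u * u = 1 → v * v = 1 → z a u v = 1

theorem St.co (H : E3 G) {a u v : G} (h : St a) (hu : u * u = 1) (hv : v * v = 1) :
    Commute (k a u) (k a v) := co_one (ik H h.1 hu) (ik H h.1 hv) (h.2 u v hu hv)

theorem St.k (H : E3 G) {a t : G} (ha : a * a = 1) (ht : t * t = 1) : St (k a t) :=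
  ⟨ik H ha ht, fun u v hu hv => stepA H ha ht hu hv⟩

theorem St.cj (H : E3 G) {a g : G} (h : St a) (hg : g * g = 1) : St (g * a * g) := by
  refine ⟨ic h.1 hg, fun u v hu hv => ?_⟩
  have e := h.2 (g * u * g) (g * v * g) (ic hu hg) (ic hv hg)
  have e2' := congrArg (fun t => g * t * g) e
  beta_reduce at e2'
  unfold z at e2' ⊢
  rw [cj_k hg, cj_k hg, cj_k hg, show g * (g * u * g) * g = u by simp only [mul_assoc, cc hg, hg, mul_one],
    show g * (g * v * g) * g = v by simp only [mul_assoc, cc hg, hg, mul_one]] at e2'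
  rw [e2', mul_one, hg]

theorem St.one : St (1 : G) := by
  refine ⟨one_mul 1, fun u v hu hv => ?_⟩
  simp [z, Bu.k, hu, hv]

/-- if two of three involutions are strong, all the commutators of weight four are trivial -/
theorem St.z3 (H : E3 G) {a b c : G} (ha : St a) (hb : St b) (hc : c * c = 1) : z c a b = 1 := by
  have := e3 H ha.1 hb.1 hc
  rwa [ha.2 b c hb.1 hc, hb.2 a c ha.1 hc, one_mul, one_mul] at this

/-- the four term formula -/
theorem Q4 (H : E3 G) {x y A B : G} (hx : x * x = 1) (hy : y * y = 1) (hA : A * A = 1)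
    (hB : B * B = 1) (hxy : Commute x y) (hAB : Commute A B)
    (s1 : Commute (k x A) y) (s2 : Commute (k x A) B) (r1 : Commute (k y B) x)
    (r2 : Commute (k y B) A) :
    k (x * y) (A * B) = k x B * k x A * (k y B * k y A) := by
  have c1 : Commute (k x B) y := by
    apply co_one (ik H hx hB) hy
    rw [P1 H hx hy hB hxy]
    exact k_one (ik H hy hB) hx r1
  have c2 : Commute (k y A) B := by
    rw [k_swap H hy hA]
    apply co_one (ik H hA hy) hB
    rw [P1 H hA hB hy hAB, k_swap H hB hy]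
    exact k_one (ik H hy hB) hA r2
  have e1 : k x (A * B) = k x B * k x A := kmr hx hA hB hAB s2
  have e2' : k y (A * B) = k y B * k y A := kmr hy hA hB hAB c2
  rw [kml hx hy (im hA hB hAB) hxy (by rw [e1]; exact c1.mul_left s1), e1, e2']

/-- the four term formula for strong elements -/
theorem Q4' (H : E3 G) {a A b c : G} (ha : St a) (hA : St A) (hb : b * b = 1) (hc : c * c = 1) :
    k (k a b) (k A c) = k a (c * A * c) * k a A *
      (k (b * a * b) (c * A * c) * k (b * a * b) A) := by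
  have hy := ha.cj H hb
  have hB := hA.cj H hc
  have e1 : k a b = a * (b * a * b) := k_eq ha.1
  have e2' : k A c = A * (c * A * c) := k_eq hA.1
  have s1 : Commute (k a A) (b * a * b) := by
    rw [cj_eq ha.1]
    exact (kl H ha.1 hA.1).mul_right (ha.co H hA.1 hb)
  have s2 : Commute (k a A) (c * A * c) := by
    rw [cj_eq hA.1]
    refine (kr H ha.1 hA.1).mul_right ?_
    rw [k_swap H ha.1 hA.1]
    exact hA.co H ha.1 hc
  have r1 : Commute (k (b * a * b) (c * A * c)) a := by
    have : a = b * (b * a * b) * b := by simp only [mul_assoc, cc hb, hb, mul_one]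
    conv_rhs => rw [this]
    rw [cj_eq hy.1]
    exact (kl H hy.1 hB.1).mul_right (hy.co H hB.1 hb)
  have r2 : Commute (k (b * a * b) (c * A * c)) A := by
    have : A = c * (c * A * c) * c := by simp only [mul_assoc, cc hc, hc, mul_one]
    conv_rhs => rw [this]
    rw [cj_eq hB.1]
    refine (kr H hy.1 hB.1).mul_right ?_
    rw [k_swap H hy.1 hB.1]
    exact hB.co H hy.1 hc
  rw [e1, e2']
  exact Q4 H ha.1 hy.1 hA.1 hB.1 (co_cj H ha.1 hb) (co_cj H hA.1 hc) s1 s2 r1 r2

section L

variable (H : E3 G) {a A b c : G} (ha : St a) (hA : St A) (hb : St b) (hc : St c)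
  (h : Commute a A)
include H ha hA hb hc h

theorem M : k (k a b) (k A c) = k (k A b) (k a c) := by
  have haA := im ha.1 hA.1 h
  have ip := ik H ha.1 hb.1
  have iq := ik H hA.1 hb.1
  have ip' := ik H ha.1 hc.1
  have iq' := ik H hA.1 hc.1
  have iZb := ik H ip hA.1
  have iZw := ik H ip' hA.1
  have e : Commute (k a b * k A b * k (k a b) A) (k a c * k A c * k (k a c) A) := by
    have := co_one (ik H haA hb.1) (ik H haA hc.1) (St.z3 H hb hc haA)
    rwa [P5 H ha.1 hA.1 hb.1 h, P5 H ha.1 hA.1 hc.1 h] at this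
  have cpq : Commute (k a b) (k A b) := P2 H ha.1 hA.1 hb.1 h
  have cpq' : Commute (k a c) (k A c) := P2 H ha.1 hA.1 hc.1 h
  have cpp : Commute (k a b) (k a c) := ha.co H hb.1 hc.1
  have cqq : Commute (k A b) (k A c) := hA.co H hb.1 hc.1
  have Zbp' : Commute (k (k a b) A) (k a c) := (C2 H ha.1 hA.1 h hc.1 hb.1).1
  have Zbq' : Commute (k (k a b) A) (k A c) := (C2 H ha.1 hA.1 h hc.1 hb.1).2
  have ZwP : Commute (k (k a c) A) (k a b) := (C2 H ha.1 hA.1 h hb.1 hc.1).1
  have ZwQ : Commute (k (k a c) A) (k A b) := (C2 H ha.1 hA.1 h hb.1 hc.1).2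
  have ZZ : Commute (k (k a c) A) (k (k a b) A) := (C0 H ha.1 hA.1 h hb.1 hc.1).2.1
  have e1 : Commute (k a b * k A b) (k a c * k A c * k (k a c) A) := by
    have := e.mul_left ((Zbp'.mul_right Zbq').mul_right ZZ.symm)
    rwa [mul_assoc (k a b * k A b), iZb, mul_one] at this
  have e2 : Commute (k a b * k A b) (k a c * k A c) := by
    have := e1.mul_right ((ZwP.mul_right ZwQ).symm)
    rwa [mul_assoc (k a c * k A c), iZw, mul_one] at this
  have ipq := im ip iq cpq
  have ipq' := im ip' iq' cpq'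
  have e3 := k_one ipq ipq' e2
  have c1 : Commute (k (k A b) (k a c)) (k A c) := by
    apply co_one (ik H iq ip') iq'
    rw [P1 H iq iq' ip' cqq, k_one iq' ip' cpq'.symm]
    exact k_1_left _ iq
  have c2 : Commute (k (k a b) (k A c)) (k A b) := by
    apply co_one (ik H ip iq') iq
    rw [P1 H ip iq iq' cpq, k_one iq iq' cqq]
    exact k_1_left _ ip
  have g1 : k (k a b * k A b) (k a c) = k (k A b) (k a c) := by
    rw [kml ip iq ip' cpq, k_one ip ip' cpp, one_mul]
    rw [k_one ip ip' cpp]; exact Commute.one_left _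
  have g2 : k (k a b * k A b) (k A c) = k (k a b) (k A c) := by
    rw [kml ip iq iq' cpq c2, k_one iq iq' cqq, mul_one]
  rw [kmr ipq ip' iq' cpq' (by rw [g1]; exact c1), g1, g2] at e3
  exact eq_of_mul (ik H iq ip') e3

omit hA hc in
/-- the value commutes with the last letter -/
theorem last (iA : A * A = 1) : Commute (k a (b * A * b)) b := by
  rw [T1 H ha.1 iA h hb.1]
  exact P3 H ha.1 iA hb.1 h

theorem Sym (h1 : Commute a (b * A * b)) (h2 : Commute a (c * A * c)) :
    k a (b * (c * A * c) * b) = k a (c * (b * A * b) * c) := by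
  have m := M H ha hA hb hc h
  have hAc := hA.cj H hc.1
  have hAb := hA.cj H hb.1
  have iy := ic ha.1 hb.1
  have iy' := ic ha.1 hc.1
  rw [Q4' H ha hA hb.1 hc.1, k_swap H (ik H hA.1 hb.1) (ik H ha.1 hc.1), Q4' H ha hA hc.1 hb.1] at m
  have q1 : Commute (b * a * b) A := by
    have := cj_co hb.1 h1
    rwa [show b * (b * A * b) * b = A by simp only [mul_assoc, cc hb.1, hb.1, mul_one]] at this
  have q2 : Commute (c * a * c) A := by
    have := cj_co hc.1 h2
    rwa [show c * (c * A * c) * c = A by simp only [mul_assoc, cc hc.1, hc.1, mul_one]] at this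
  rw [k_one ha.1 hAc.1 h2, k_one ha.1 hAb.1 h1, k_one ha.1 hA.1 h, k_one iy hA.1 q1,
    k_one iy' hA.1 q2] at m
  simp only [one_mul, mul_one] at m
  have l1 := last H ha hb h2 hAc.1
  have l2 := last H ha hc h1 hAb.1
  have f1 : k (b * a * b) (c * A * c) = k a (b * (c * A * c) * b) := by
    rw [← cj_fix hb.1 l1, cj_k hb.1, show b * (b * (c * A * c) * b) * b = c * A * c by
      simp only [mul_assoc, cc hb.1, hb.1, mul_one]]
  have f2 : k (c * a * c) (b * A * b) = k a (c * (b * A * b) * c) := by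
    rw [← cj_fix hc.1 l2, cj_k hc.1, show c * (c * (b * A * b) * c) * c = b * A * b by
      simp only [mul_assoc, cc hc.1, hc.1, mul_one]]
  rw [← f1, ← f2, m]

end L

section N

variable (H : E3 G) {a A u b : G} (ha : St a) (hA : St A) (hu : St u) (hb : St b)
  (h : Commute a A)
include H ha hA hu h

omit ha hA hu h in
/-- in the group generated by three involutions, two of them strong -/
theorem kAw (iA : A * A = 1) (hu : St u) (ib : b * b = 1) : Commute (k A (k u b)) u := by
  have iw := ik H hu.1 ib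
  rw [k_swap H iA iw]
  apply co_one (ik H iw iA) hu.1
  rw [P1 H iw hu.1 iA (kl H hu.1 ib)]
  exact k_one (ik H hu.1 iA) iw (hu.co H iA ib)

theorem Add (ib : b * b = 1) :
    k a (b * u * b * A * (b * u * b)) = k a (k u b * A * k u b) * k a (u * A * u) := by
  have iw := ik H hu.1 ib
  have iC := ic hA.1 hu.1
  have iD := ik H hA.1 iw
  have c0 : Commute (k A (k u b)) u := kAw H hA.1 hu ib
  have e0 : b * u * b = u * k u b := cj_eq hu.1
  have e1 : u * k u b = k u b * u := (kl H hu.1 ib).eq.symm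
  have e2' : b * u * b * A * (b * u * b) = u * A * u * k A (k u b) := by
    conv_lhs => rw [e0]
    rw [show u * k u b * A * (u * k u b) = (u * k u b) * A * (u * k u b) from rfl]
    conv_lhs => enter [1, 1]; rw [e1]
    rw [show k u b * u * A * (u * k u b) = k u b * (u * A * u) * k u b by simp only [mul_assoc],
      cj_eq iC]
    congr 1
    rw [← cj_fix hu.1 c0, cj_k hu.1, cj_fix hu.1 (kl H hu.1 ib)]
  have cC : Commute (u * A * u) (k A (k u b)) := by
    have e3 : k A (k u b) = k (u * A * u) (k u b) := by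
      rw [← cj_fix hu.1 c0, cj_k hu.1, cj_fix hu.1 (kl H hu.1 ib)]
    rw [e3]
    exact (kl H iC iw).symm
  have F : k a (u * A * u) = k A (u * a * u) := by
    rw [T1 H ha.1 hA.1 h hu.1, T1 H hA.1 ha.1 h.symm hu.1, P1 H ha.1 hA.1 hu.1 h]
  rw [e2', kmr ha.1 iC iD cC (by rw [F]; exact hA.co H (ic ha.1 hu.1) iw)]
  rw [T1 H ha.1 hA.1 h iw, k_swap H ha.1 iD, P1 H hA.1 ha.1 iw h.symm]

include hb

theorem Mv : k a (u * (b * A * b) * u) = k a (k u b * A * k u b) * k a (b * (u * A * u) * b) := by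
  have iw := ik H hu.1 hb.1
  have iC := ic (ic hA.1 hu.1) hb.1
  have hC := (hA.cj H hu.1).cj H hb.1
  have iD := ik H hA.1 iw
  have c0 : Commute (k A (k u b)) u := kAw H hA.1 hu hb.1
  have c1 : Commute (k A (k u b)) b := by
    rw [k_swap H hu.1 hb.1]; exact kAw H hA.1 hb hu.1
  have e3 : k (b * (u * A * u) * b) (k u b) = k A (k u b) := by
    have w1 : u * k u b * u = k u b := cj_fix hu.1 (kl H hu.1 hb.1)
    have w2 : b * k u b * b = k u b := cj_fix hb.1 (kr H hu.1 hb.1)
    have f1 : k (u * A * u) (k u b) = k A (k u b) := by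
      rw [← cj_fix hu.1 c0, cj_k hu.1, w1]
    rw [← f1] at c1 ⊢
    rw [← cj_fix hb.1 c1, cj_k hb.1, w2]
  have e1 : u * (b * A * b) * u = b * (u * A * u) * b * k A (k u b) := by
    rw [← e3, ← cj_eq iC]
    have g1 : k u b * b * u = u * b := by
      simp only [k, mul_assoc, cc hb.1, hu.1, mul_one]
    have g2 : u * (b * k u b) = b * u := by
      rw [(kr H hu.1 hb.1).eq.symm]
      rw [k_swap H hu.1 hb.1]
      simp only [k, mul_assoc, cc hb.1, cc hu.1, hb.1, mul_one]
      rw [show u * (b * (u * (b * (u * b)))) = (k u b) * u * b by simp only [k, mul_assoc],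
        k_swap H hu.1 hb.1]
      simp only [k, mul_assoc, cc hu.1, hb.1, mul_one]
    calc u * (b * A * b) * u = (u * b) * A * (b * u) := by simp only [mul_assoc]
      _ = (k u b * b * u) * A * (u * (b * k u b)) := by rw [g1, g2]
      _ = _ := by simp only [mul_assoc]
  have cC : Commute (b * (u * A * u) * b) (k A (k u b)) := by
    rw [← e3]; exact (kl H iC iw).symm
  rw [e1, kmr ha.1 iC iD cC]
  · rw [T1 H ha.1 hA.1 h iw, k_swap H ha.1 iD, P1 H hA.1 ha.1 iw h.symm]
  · rw [k_swap H ha.1 iC, ← e3]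
    exact hC.co H ha.1 iw

omit hu hb in
theorem T0 (iu : u * u = 1) (hb : St b) : Commute (k (k a (b * A * b)) u) b := by
  have iF := ik H ha.1 (ic hA.1 hb.1)
  have haA := im ha.1 hA.1 h
  have c1 := hb.co H haA iu
  rw [k_swap H hb.1 haA, P5 H ha.1 hA.1 hb.1 h, ← T1 H ha.1 hA.1 h hb.1] at c1
  have c2 := hb.co H ha.1 iu
  have c3 := hb.co H hA.1 iu
  rw [k_swap H hb.1 ha.1] at c2
  rw [k_swap H hb.1 hA.1] at c3
  have c4 : Commute (k a (b * A * b)) (k b u) := by
    have := (c2.mul_left c3).inv_left.mul_left c1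
    rwa [← mul_assoc, inv_mul_cancel, one_mul] at this
  have c5 : Commute (k a (b * A * b)) b := last H ha hb h hA.1
  have c6 : Commute (k a (b * A * b)) (u * b * u) := by
    rw [cj_eq hb.1]; exact c5.mul_right c4
  have c7 := cj_co iu c6
  rw [show u * (u * b * u) * u = b by simp only [mul_assoc, cc iu, iu, mul_one]] at c7
  rw [k_eq iF]
  exact c5.mul_left c7

theorem R : k a (k u b * A * k u b) =
    k (k a (b * A * b)) u * k (k a (u * A * u)) b := by
  have iw := ik H hu.1 hb.1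
  have hAu := hA.cj H hu.1
  have hAb := hA.cj H hb.1
  have iq := ik H hA.1 hu.1
  have is' := ik H hA.1 hb.1
  obtain ⟨Fu, hFu⟩ : ∃ F, F = k a (u * A * u) := ⟨_, rfl⟩
  obtain ⟨Fb, hFb⟩ : ∃ F, F = k a (b * A * b) := ⟨_, rfl⟩
  have iFu : Fu * Fu = 1 := by rw [hFu]; exact ik H ha.1 hAu.1
  have iFb : Fb * Fb = 1 := by rw [hFb]; exact ik H ha.1 hAb.1
  have cFuu : Commute Fu u := by rw [hFu]; exact last H ha hu h hA.1
  have cFbb : Commute Fb b := by rw [hFb]; exact last H ha hb h hA.1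
  have FF : Commute Fu Fb := by rw [hFu, hFb]; exact ha.co H hAu.1 hAb.1
  -- general expansion of k a (A ^ (x y))
  have gen : ∀ x y : G, St x → St y →
      k a (y * (x * A * x) * y) = k a (k (k A x) y) * k a (y * A * y) * k a (x * A * x) := by
    intro x y hx hy
    have hAx := hA.cj H hx.1
    have hAy := hA.cj H hy.1
    have i1 := ik H hA.1 hx.1
    have i2 := ik H hA.1 hy.1
    have i3 := ik H i1 hy.1
    have e1 : k (x * A * x) y = k A y * k (k A x) y := by
      rw [cj_eq hA.1, P5 H hA.1 i1 hy.1 (kl H hA.1 hx.1).symm,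
        k_one i2 i1 (hA.co H hy.1 hx.1), mul_one]
    have c1 : Commute (k A y) (k (k A x) y) := by
      have := ik H hAx.1 hy.1
      rw [e1] at this
      exact co_of_im i2 i3 this
    have F : k a (k A y) = k a (y * A * y) := by
      rw [T1 H ha.1 hA.1 h hy.1, k_swap H ha.1 i2, P1 H hA.1 ha.1 hy.1 h.symm]
    have F' : k a (y * A * y) = k A (y * a * y) := by
      rw [T1 H ha.1 hA.1 h hy.1, T1 H hA.1 ha.1 h.symm hy.1, P1 H ha.1 hA.1 hy.1 h]
    have c2 : Commute (k a (k A y)) (k (k A x) y) := by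
      rw [F]
      refine co_k ?_ (last H ha hy h hA.1)
      rw [F']
      exact hA.co H (ic ha.1 hy.1) hx.1
    have e2' : k a (k (x * A * x) y) = k a (k (k A x) y) * k a (y * A * y) := by
      rw [e1, kmr ha.1 i2 i3 c1 c2, F]
    rw [cj_eq (x := x * A * x) hAx.1, kmr ha.1 hAx.1 (ik H hAx.1 hy.1) (kl H hAx.1 hy.1).symm, e2']
    rw [k_swap H ha.1 hAx.1]
    exact hAx.co H ha.1 hy.1
  have gP := gen u b hu hb
  have gQ := gen b u hb hu
  rw [← hFu, ← hFb] at gP gQ
  obtain ⟨g, hg⟩ : ∃ F, F = k a (k (k A u) b) := ⟨_, rfl⟩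
  obtain ⟨g', hg'⟩ : ∃ F, F = k a (k (k A b) u) := ⟨_, rfl⟩
  rw [← hg] at gP
  rw [← hg'] at gQ
  have ig : g * g = 1 := by rw [hg]; exact ik H ha.1 (ik H iq hb.1)
  have ig' : g' * g' = 1 := by rw [hg']; exact ik H ha.1 (ik H is' hu.1)
  have cgb : Commute g b := by
    rw [hg, k_swap H iq hb.1, k_swap H ha.1 (ik H hb.1 iq)]
    apply co_one (ik H (ik H hb.1 iq) ha.1) hb.1
    rw [P1 H (ik H hb.1 iq) hb.1 ha.1 (kl H hb.1 iq)]
    exact k_one (ik H hb.1 ha.1) (ik H hb.1 iq) (hb.co H ha.1 iq)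
  have cgu : Commute g' u := by
    rw [hg', k_swap H is' hu.1, k_swap H ha.1 (ik H hu.1 is')]
    apply co_one (ik H (ik H hu.1 is') ha.1) hu.1
    rw [P1 H (ik H hu.1 is') hu.1 ha.1 (kl H hu.1 is')]
    exact k_one (ik H hu.1 ha.1) (ik H hu.1 is') (hu.co H ha.1 is')
  have gFu : Commute g Fu := by rw [hg, hFu]; exact ha.co H (ik H iq hb.1) hAu.1
  have gFb : Commute g Fb := by rw [hg, hFb]; exact ha.co H (ik H iq hb.1) hAb.1
  have gFu' : Commute g' Fu := by rw [hg', hFu]; exact ha.co H (ik H is' hu.1) hAu.1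
  have gFb' : Commute g' Fb := by rw [hg', hFb]; exact ha.co H (ik H is' hu.1) hAb.1
  have gg : Commute g g' := by rw [hg, hg']; exact ha.co H (ik H iq hb.1) (ik H is' hu.1)
  -- the relation between the two values
  have m := M H ha hA hb hu h
  rw [Q4' H ha hA hb.1 hu.1, k_swap H is' (ik H ha.1 hu.1), Q4' H ha hA hu.1 hb.1,
    k_one ha.1 hA.1 h, mul_one, mul_one, ← hFu, ← hFb] at m
  have q1 : k (b * a * b) A = Fb := by
    have : k (b * a * b) A = b * k a (b * A * b) * b := by
      rw [cj_k hb.1, show b * (b * A * b) * b = A by simp only [mul_assoc, cc hb.1, hb.1, mul_one]]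
    rw [this, ← hFb, cj_fix hb.1 cFbb]
  have q2 : k (u * a * u) A = Fu := by
    have : k (u * a * u) A = u * k a (u * A * u) * u := by
      rw [cj_k hu.1, show u * (u * A * u) * u = A by simp only [mul_assoc, cc hu.1, hu.1, mul_one]]
    rw [this, ← hFu, cj_fix hu.1 cFuu]
  have q3 : k (b * a * b) (u * A * u) = b * (g * Fb * Fu) * b := by
    rw [← gP, cj_k hb.1, show b * (b * (u * A * u) * b) * b = u * A * u by
      simp only [mul_assoc, cc hb.1, hb.1, mul_one]]
  have q4 : k (u * a * u) (b * A * b) = u * (g' * Fu * Fb) * u := by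
    rw [← gQ, cj_k hu.1, show u * (u * (b * A * b) * u) * u = b * A * b by
      simp only [mul_assoc, cc hu.1, hu.1, mul_one]]
  rw [q1, q2, q3, q4] at m
  have q5 : b * (g * Fb * Fu) * b = g * Fb * (Fu * k Fu b) := by
    rw [show b * (g * Fb * Fu) * b = (b * g * b) * (b * Fb * b) * (b * Fu * b) by
      simp only [mul_assoc, cc hb.1], cj_fix hb.1 cgb, cj_fix hb.1 cFbb, cj_eq iFu]
  have q6 : u * (g' * Fu * Fb) * u = g' * Fu * (Fb * k Fb u) := by
    rw [show u * (g' * Fu * Fb) * u = (u * g' * u) * (u * Fu * u) * (u * Fb * u) by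
      simp only [mul_assoc, cc hu.1], cj_fix hu.1 cgu, cj_fix hu.1 cFuu, cj_eq iFb]
  rw [q5, q6] at m
  -- m : Fu * (g Fb (Fu K) Fb) = Fb * (g' Fu (Fb K') Fu)
  have cK1 : Commute (k Fu b) Fb := (co_k FF.symm cFbb).symm
  have cK2 : Commute (k Fb u) Fu := (co_k FF cFuu).symm
  have cK3 : Commute (k Fu b) Fu := kl H iFu hb.1
  have cK4 : Commute (k Fb u) Fb := kl H iFb hu.1
  have cK5 : Commute (k Fu b) g := (co_k gFu cgb).symm
  have cK6 : Commute (k Fb u) g' := (co_k gFb' cgu).symm
  have n1 : Fu * (g * Fb * (Fu * k Fu b) * Fb) = g * k Fu b := by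
    calc Fu * (g * Fb * (Fu * k Fu b) * Fb) = Fu * g * (Fb * Fu) * (k Fu b * Fb) := by
          simp only [mul_assoc]
      _ = Fu * g * (Fu * Fb) * (Fb * k Fu b) := by rw [FF.eq, cK1.eq]
      _ = (Fu * g) * Fu * k Fu b := by simp only [mul_assoc, cc iFb]
      _ = (g * Fu) * Fu * k Fu b := by rw [gFu.eq]
      _ = _ := by simp only [mul_assoc, cc iFu]
  have n2 : Fb * (g' * Fu * (Fb * k Fb u) * Fu) = g' * k Fb u := by
    calc Fb * (g' * Fu * (Fb * k Fb u) * Fu) = Fb * g' * (Fu * Fb) * (k Fb u * Fu) := by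
          simp only [mul_assoc]
      _ = Fb * g' * (Fb * Fu) * (Fu * k Fb u) := by rw [FF.eq, cK2.eq]
      _ = (Fb * g') * Fb * k Fb u := by simp only [mul_assoc, cc iFu]
      _ = (g' * Fb) * Fb * k Fb u := by rw [gFb'.eq]
      _ = _ := by simp only [mul_assoc, cc iFb]
  rw [n1, n2] at m
  have n3 : g' * g = k Fb u * k Fu b := by
    have : g' * (g * k Fu b) = k Fb u := by rw [m, cc ig']
    rw [← this]
    simp only [mul_assoc, ik H iFu hb.1, mul_one]
  -- Hall-Witt
  have mv := Mv H ha hA hu hb h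
  rw [gP, gQ] at mv
  have n4 : k a (k u b * A * k u b) = g' * g := by
    have e1 : k a (k u b * A * k u b) = g' * Fu * Fb * (g * Fb * Fu) := by
      rw [mv]
      have : g * Fb * Fu * (g * Fb * Fu) = 1 :=
        im (im ig iFb gFb) iFu (gFu.mul_left FF.symm)
      rw [mul_assoc (k a (k u b * A * k u b)), this, mul_one]
    rw [e1]
    calc g' * Fu * Fb * (g * Fb * Fu) = g' * Fu * (Fb * g) * Fb * Fu := by simp only [mul_assoc]
      _ = g' * Fu * (g * Fb) * Fb * Fu := by rw [gFb.eq]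
      _ = g' * (Fu * g) * Fu := by simp only [mul_assoc, cc iFb]
      _ = g' * (g * Fu) * Fu := by rw [gFu.eq]
      _ = g' * g := by simp only [mul_assoc, iFu, mul_one]
  rw [n4, n3, hFb, hFu]

end N

/-- the value for `A ^ b` -/
theorem Bl (H : E3 G) {a A b : G} (ha : St a) (hA : St A) (hb : St b) :
    b * k a (b * A * b) * b = k a (b * A * b) * k (k a A) b := by
  have is' := ik H ha.1 hA.1
  have i1 := ik H hA.1 hb.1
  have c1 : Commute (k a A) (k A b) := by rw [k_swap H ha.1 hA.1]; exact hA.co H ha.1 hb.1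
  have e : k a (b * A * b) = k a (k A b) * k a A := by
    rw [cj_eq hA.1, kmr ha.1 hA.1 i1 (kl H hA.1 hb.1).symm c1]
  have c2 : Commute (k a (k A b)) b := by
    rw [k_swap H ha.1 i1]
    apply co_one (ik H i1 ha.1) hb.1
    rw [P1 H i1 hb.1 ha.1 (kr H hA.1 hb.1), k_swap H hA.1 hb.1]
    exact k_one (ik H hb.1 ha.1) (ik H hb.1 hA.1) (hb.co H ha.1 hA.1)
  rw [e, show b * (k a (k A b) * k a A) * b = (b * k a (k A b) * b) * (b * k a A * b) by
    simp only [mul_assoc, cc hb.1], cj_fix hb.1 c2, cj_eq is', mul_assoc]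

end Pool.Agent.W5h59.Bu
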