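import Pool.Agent.W5h59.Bu.St

set_option autoImplicit false
set_option linter.all false

namespace Pool.Agent.W5h59.Bu

universe u

variable {G : Type u} [Group G]

/-- successive conjugation by the letters of a word (involutions) -/
def act : G → List G → G
  | a, [] => a
  | a, u :: l => act (u * a * u) l

theorem act_append (a : G) (l l' : List G) : act a (l ++ l') = act (act a l) l' := by
  induction l generalizing a with
  | nil => rfl
  | cons u l ih => exact ih _

theorem act_one (l : List G) (h : ∀ u ∈ l, u * u = 1) : act (1 : G) l = 1 := by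
  induction l with
  | nil => rfl
  | cons u l ih =>
    show act (u * 1 * u) l = 1
    rw [mul_one, h u (by simp)]
    exact ih fun v hv => h v (List.mem_cons_of_mem _ hv)

theorem act_mul (x y : G) (l : List G) (h : ∀ u ∈ l, u * u = 1) :
    act (x * y) l = act x l * act y l := by
  induction l generalizing x y with
  | nil => rfl
  | cons u l ih =>
    show act (u * (x * y) * u) l = act (u * x * u) l * act (u * y * u) l
    rw [← ih _ _ fun v hv => h v (List.mem_cons_of_mem _ hv)]
    congr 1
    simp only [mul_assoc, cc (h u (by simp))]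

theorem act_k (x y : G) (l : List G) (h : ∀ u ∈ l, u * u = 1) :
    act (k x y) l = k (act x l) (act y l) := by
  unfold k
  rw [act_mul _ _ l h, act_mul _ _ l h]

theorem act_rev (x : G) (l : List G) (h : ∀ u ∈ l, u * u = 1) : act (act x l) l.reverse = x := by
  induction l generalizing x with
  | nil => rfl
  | cons u l ih =>
    rw [List.reverse_cons, act_append]
    show act (act (act (u * x * u) l) l.reverse) [u] = x
    rw [ih _ fun v hv => h v (List.mem_cons_of_mem _ hv)]
    show u * (u * x * u) * u = x
    simp only [mul_assoc, cc (h u (by simp)), h u (by simp), mul_one]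

theorem act_rev' (x : G) (l : List G) (h : ∀ u ∈ l, u * u = 1) : act (act x l.reverse) l = x := by
  have := act_rev x l.reverse (fun u hu => h u (List.mem_reverse.1 hu))
  rwa [List.reverse_reverse] at this

theorem act_co {x y : G} (l : List G) (h : ∀ u ∈ l, u * u = 1) (c : Commute x y) :
    Commute (act x l) (act y l) := by
  show act x l * act y l = act y l * act x l
  rw [← act_mul _ _ l h, ← act_mul _ _ l h, c.eq]

theorem act_co' {x y : G} (l : List G) (h : ∀ u ∈ l, u * u = 1)
    (c : Commute (act x l) (act y l)) : Commute x y := by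
  have := act_co l.reverse (fun u hu => h u (List.mem_reverse.1 hu)) c
  rwa [act_rev x l h, act_rev y l h] at this

theorem act_inv {x : G} (hx : x * x = 1) (l : List G) (h : ∀ u ∈ l, u * u = 1) :
    act x l * act x l = 1 := by
  rw [← act_mul _ _ l h, hx, act_one l h]

theorem act_St (H : E3 G) {x : G} (hx : St x) (l : List G) (h : ∀ u ∈ l, u * u = 1) :
    St (act x l) := by
  induction l generalizing x with
  | nil => exact hx
  | cons u l ih =>
    exact ih (hx.cj H (h u (by simp))) fun v hv => h v (List.mem_cons_of_mem _ hv)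

/-- the pairing -/
def φ (a : G) (l : List G) : G := k a (act a l)

theorem φ_split (a y : G) (l1 l2 : List G) (h2 : ∀ u ∈ l2, u * u = 1) :
    φ a (l1 ++ y :: l2) = act (k (act a l2.reverse) (y * act a l1 * y)) l2 := by
  unfold φ
  rw [act_k _ _ _ h2, act_rev' _ _ h2, act_append]
  rfl

/-- thickness with respect to a set of letters -/
def Th (X : G → Prop) (a : G) (n : ℕ) : Prop :=
  ∀ l : List G, (∀ u ∈ l, X u) → l.length ≤ n → Commute a (act a l)

section sw

variable (H : E3 G) {X : G → Prop} (hX : ∀ u, X u → St u) {a : G} (ha : St a) {n : ℕ}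
  (hT : Th X a n)
include H hX ha hT

omit H ha in
theorem pair_co {l1 l2 : List G} (h1 : ∀ u ∈ l1, X u) (h2 : ∀ u ∈ l2, X u)
    (hl : l1.length + l2.length ≤ n) : Commute (act a l2.reverse) (act a l1) := by
  have i2 : ∀ u ∈ l2, u * u = 1 := fun u hu => (hX u (h2 u hu)).1
  apply act_co' l2 i2
  rw [act_rev' _ _ i2, ← act_append]
  apply hT
  · intro u hu
    rcases List.mem_append.1 hu with hu | hu
    · exact h1 u hu
    · exact h2 u hu
  · rw [List.length_append]; exact hl

theorem φ_swap {b c : G} {l1 l2 : List G} (h1 : ∀ u ∈ l1, X u) (h2 : ∀ u ∈ l2, X u) (hb : X b)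
    (hc : X c) (hl : l1.length + l2.length + 2 ≤ n + 1) :
    φ a (l1 ++ b :: c :: l2) = φ a (l1 ++ c :: b :: l2) := by
  have i2 : ∀ u ∈ l2, u * u = 1 := fun u hu => (hX u (h2 u hu)).1
  have i1 : ∀ u ∈ l1, u * u = 1 := fun u hu => (hX u (h1 u hu)).1
  have i2r : ∀ u ∈ l2.reverse, u * u = 1 := fun u hu => i2 u (List.mem_reverse.1 hu)
  have hsp : ∀ x y : G, φ a (l1 ++ x :: y :: l2) =
      act (k (act a l2.reverse) (y * (x * act a l1 * x) * y)) l2 := by
    intro x y
    unfold φ
    rw [act_k _ _ _ i2, act_rev' _ _ i2, act_append]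
    rfl
  rw [hsp, hsp]
  congr 1
  have ha' := act_St H ha l2.reverse i2r
  have hA := act_St H ha l1 i1
  have c0 := pair_co hX hT h1 h2 (by omega)
  have c1 : ∀ x, X x → Commute (act a l2.reverse) (x * act a l1 * x) := by
    intro x hx
    have := pair_co (l1 := l1 ++ [x]) (l2 := l2) hX hT (by
      intro u hu
      rcases List.mem_append.1 hu with hu | hu
      · exact h1 u hu
      · rw [List.mem_singleton.1 hu]; exact hx) h2 (by
      rw [List.length_append, List.length_singleton]; omega)
    rwa [act_append] at this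
  exact (Sym H ha' hA (hX c hc) (hX b hb) c0 (c1 c hc) (c1 b hb))

theorem φ_perm_aux {l l' : List G} (hp : l.Perm l') : ∀ p : List G, (∀ u ∈ p, X u) →
    (∀ u ∈ l, X u) → p.length + l.length ≤ n + 1 → φ a (p ++ l) = φ a (p ++ l') := by
  induction hp with
  | nil => intro p _ _ _; rfl
  | @cons x l l' hp ih =>
    intro p h1 h2 hl
    have := ih (p ++ [x]) (by
      intro u hu
      rcases List.mem_append.1 hu with hu | hu
      · exact h1 u hu
      · rw [List.mem_singleton.1 hu]; exact h2 x (by simp))
      (fun u hu => h2 u (List.mem_cons_of_mem _ hu)) (by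
        rw [List.length_append, List.length_singleton]
        rw [List.length_cons] at hl
        omega)
    simpa only [List.append_assoc, List.singleton_append] using this
  | swap x y l =>
    intro p h1 h2 hl
    exact φ_swap H hX ha hT h1 (fun u hu => h2 u (by simp [hu])) (h2 y (by simp))
      (h2 x (by simp)) (by simp only [List.length_cons] at hl; omega)
  | @trans l1 l2 l3 p1 p2 ih1 ih2 =>
    intro p h1 h2 hl
    rw [ih1 p h1 h2 hl]
    exact ih2 p h1 (fun u hu => h2 u (p1.mem_iff.2 hu)) (by rw [← p1.length_eq]; exact hl)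

theorem φ_perm {l l' : List G} (hp : l.Perm l') (h2 : ∀ u ∈ l, X u) (hl : l.length ≤ n + 1) :
    φ a l = φ a l' := by
  have := φ_perm_aux H hX ha hT hp [] (by simp) h2 (by simpa using hl)
  simpa using this

end sw

/-- an element whose thickness is at least the number of generators has infinite thickness -/
theorem beta (H : E3 G) (S : Finset G) (hS : ∀ u ∈ S, St u) {a : G} (ha : St a)
    (hT : Th (fun u => u ∈ S) a S.card) : ∀ n : ℕ, Th (fun u => u ∈ S) a n := by
  classical
  intro n
  induction n using Nat.strong_induction_on with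
  | _ n ih =>
    intro l hl hn
    by_cases hc : l.length ≤ S.card
    · exact hT l hl hc
    · have hnd : ¬ l.Nodup := by
        intro hnd
        apply hc
        rw [← List.toFinset_card_of_nodup hnd]
        apply Finset.card_le_card
        intro x hx
        exact hl x (List.mem_toFinset.1 hx)
      rw [List.nodup_iff_count_le_one] at hnd
      push Not at hnd
      obtain ⟨x, hx⟩ := hnd
      have m1 : x ∈ l := List.count_pos_iff.1 (by omega)
      have p1 := List.perm_cons_erase m1
      have m2 : x ∈ l.erase x := by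
        apply List.count_pos_iff.1
        rw [List.count_erase_self]; omega
      have p2 := List.perm_cons_erase m2
      obtain ⟨l', hl'⟩ : ∃ l', l' = (l.erase x).erase x := ⟨_, rfl⟩
      rw [← hl'] at p2
      have p3 : l.Perm (x :: x :: l') := p1.trans (List.Perm.cons x p2)
      have hlen := p3.length_eq
      simp only [List.length_cons] at hlen
      have hT' : Th (fun u => u ∈ S) a (l.length - 1) := ih _ (by omega)
      have e := φ_perm H hS ha hT' p3 hl (by omega)
      have e1 : φ a (x :: x :: l') = φ a l' := by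
        unfold φ
        show k a (act (x * (x * a * x) * x) l') = _
        have ix := (hS x (hl x m1)).1
        rw [show x * (x * a * x) * x = a by simp only [mul_assoc, cc ix, ix, mul_one]]
      have il : ∀ u ∈ l', u ∈ S := fun u hu => hl u (p3.mem_iff.2 (by simp [hu]))
      have c1 : Commute a (act a l') := hT' l' il (by omega)
      have inv1 : ∀ m : List G, (∀ u ∈ m, u ∈ S) → act a m * act a m = 1 :=
        fun m hm => act_inv ha.1 m fun u hu => (hS u (hm u hu)).1
      apply co_one ha.1 (inv1 l hl)
      show φ a l = 1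
      rw [e, e1]
      exact k_one ha.1 (inv1 l' il) c1

section E

variable (H : E3 G) {a b : G} (ha : St a) (hb : St b) {n : ℕ} (hT : Th St a n)
include H ha hb hT

omit hb in
theorem add_l {u : G} {l1 l2 : List G} (ib : b * b = 1) (hu : St u) (h1 : ∀ v ∈ l1, St v)
    (h2 : ∀ v ∈ l2, St v) (hl : l1.length + l2.length ≤ n) :
    φ a (l1 ++ (b * u * b) :: l2) = φ a (l1 ++ k u b :: l2) * φ a (l1 ++ u :: l2) := by
  have i2 : ∀ u ∈ l2, u * u = 1 := fun u hu => (h2 u hu).1
  have i1 : ∀ u ∈ l1, u * u = 1 := fun u hu => (h1 u hu).1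
  rw [φ_split _ _ _ _ i2, φ_split _ _ _ _ i2, φ_split _ _ _ _ i2, ← act_mul _ _ _ i2]
  rw [Add H (act_St H ha _ fun u hu => i2 u (List.mem_reverse.1 hu)) (act_St H ha _ i1) hu
    (pair_co (fun _ h => h) hT h1 h2 hl) ib]

theorem mv_l {u : G} {l1 l2 : List G} (hu : St u) (h1 : ∀ v ∈ l1, St v)
    (h2 : ∀ v ∈ l2, St v) (hl : l1.length + l2.length ≤ n) :
    φ a (l1 ++ b :: u :: l2) = φ a (l1 ++ k u b :: l2) * φ a (l1 ++ u :: b :: l2) := by
  have i2 : ∀ u ∈ l2, u * u = 1 := fun u hu => (h2 u hu).1
  have i1 : ∀ u ∈ l1, u * u = 1 := fun u hu => (h1 u hu).1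
  have hsp : ∀ x y : G, φ a (l1 ++ x :: y :: l2) =
      act (k (act a l2.reverse) (y * (x * act a l1 * x) * y)) l2 := by
    intro x y
    unfold φ
    rw [act_k _ _ _ i2, act_rev' _ _ i2, act_append]
    rfl
  rw [φ_split _ _ _ _ i2, hsp, hsp, ← act_mul _ _ _ i2]
  rw [Mv H (act_St H ha _ fun u hu => i2 u (List.mem_reverse.1 hu)) (act_St H ha _ i1) hu hb
    (pair_co (fun _ h => h) hT h1 h2 hl)]

theorem r_l {u : G} {l : List G} (hu : St u) (h1 : ∀ v ∈ l, St v) (hl : l.length ≤ n) :
    φ a (l ++ [k u b]) = k (φ a (l ++ [b])) u * k (φ a (l ++ [u])) b := by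
  have i1 : ∀ u ∈ l, u * u = 1 := fun u hu => (h1 u hu).1
  have := R H ha (act_St H ha _ i1) hu hb (hT l h1 hl)
  unfold φ
  rw [act_append, act_append, act_append]
  exact this

theorem last_l {l : List G} (h1 : ∀ v ∈ l, St v) (hl : l.length ≤ n) :
    Commute (φ a (l ++ [b])) b := by
  have i1 : ∀ u ∈ l, u * u = 1 := fun u hu => (h1 u hu).1
  unfold φ
  rw [act_append]
  exact last H ha hb (hT l h1 hl) (act_inv ha.1 _ i1)

theorem t0_l {u : G} {l : List G} (iu : u * u = 1) (h1 : ∀ v ∈ l, St v) (hl : l.length ≤ n) :
    Commute (k (φ a (l ++ [b])) u) b := by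
  have i1 : ∀ u ∈ l, u * u = 1 := fun u hu => (h1 u hu).1
  unfold φ
  rw [act_append]
  exact T0 H ha (act_St H ha _ i1) (hT l h1 hl) iu hb

omit hT in
theorem bl_l {l : List G} (h1 : ∀ v ∈ l, St v) :
    b * φ a (l ++ [b]) * b = φ a (l ++ [b]) * k (φ a l) b := by
  have i1 : ∀ u ∈ l, u * u = 1 := fun u hu => (h1 u hu).1
  unfold φ
  rw [act_append]
  exact Bl H ha (act_St H ha _ i1) hb

omit hb hT in
theorem iφ {l : List G} (h1 : ∀ v ∈ l, v * v = 1) : φ a l * φ a l = 1 :=
  ik H ha.1 (act_inv ha.1 _ h1)

omit hb hT in
theorem φφ {l l' : List G} (h1 : ∀ v ∈ l, v * v = 1) (h2 : ∀ v ∈ l', v * v = 1) :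
    Commute (φ a l) (φ a l') := ha.co H (act_inv ha.1 _ h1) (act_inv ha.1 _ h2)

theorem ww {u v : G} {l : List G} (hu : St u) (hv : St v) (h1 : ∀ x ∈ l, St x)
    (hl : l.length + 1 ≤ n) : φ a (l ++ [k v b] ++ [k u b]) = 1 := by
  have i1 : ∀ x ∈ l, x * x = 1 := fun x hx => (h1 x hx).1
  have mem : ∀ (y : G), St y → ∀ x ∈ l ++ [y], St x := by
    intro y hy x hx
    rcases List.mem_append.1 hx with hx | hx
    · exact h1 x hx
    · rw [List.mem_singleton.1 hx]; exact hy
  have mem2 : ∀ (y z : G), St y → St z → ∀ x ∈ l ++ [y] ++ [z], St x := by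
    intro y z hy hz x hx
    rcases List.mem_append.1 hx with hx | hx
    · exact mem y hy x hx
    · rw [List.mem_singleton.1 hx]; exact hz
  have hw1 : St (k v b) := St.k H hv.1 hb.1
  have len : ∀ y : G, (l ++ [y]).length ≤ n := by
    intro y; rw [List.length_append, List.length_singleton]; exact hl
  have pm : ∀ y z : G, St y → St z → φ a (l ++ [y] ++ [z]) = φ a (l ++ [z] ++ [y]) := by
    intro y z hy hz
    apply φ_perm H (fun _ h => h) ha hT _ (mem2 y z hy hz)
    · simp only [List.length_append, List.length_singleton]; omega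
    · rw [List.append_assoc, List.append_assoc]
      exact List.Perm.append_left l (List.Perm.swap _ _ _)
  rw [r_l H ha hb hT hu (mem _ hw1) (len _)]
  have e1 : φ a (l ++ [k v b] ++ [b]) = 1 := by
    rw [pm _ _ hw1 hb, r_l H ha hb hT hv (mem _ hb) (len _)]
    have f1 : φ a (l ++ [b] ++ [b]) = 1 := by
      unfold φ
      rw [act_append, act_append]
      show k a (b * (b * act a l * b) * b) = 1
      rw [show b * (b * act a l * b) * b = act a l by
        simp only [mul_assoc, cc hb.1, hb.1, mul_one]]
      exact k_one ha.1 (act_inv ha.1 _ i1) (hT l h1 (by omega))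
    have f2 : k (φ a (l ++ [b] ++ [v])) b = 1 := by
      rw [pm _ _ hb hv]
      apply k_one (iφ H ha fun x hx => (mem2 v b hv hb x hx).1) hb.1
      exact last_l H ha hb hT (mem _ hv) (len _)
    rw [f1, f2, k_1_left _ hv.1, one_mul]
  have e2 : k (φ a (l ++ [k v b] ++ [u])) b = 1 := by
    apply k_one (iφ H ha fun x hx => (mem2 _ u hw1 hu x hx).1) hb.1
    rw [pm _ _ hw1 hu, r_l H ha hb hT hv (mem _ hu) (len _)]
    exact (t0_l H ha hb hT hv.1 (mem _ hu) (len _)).mul_left
      (kr H (iφ H ha fun x hx => (mem2 u v hu hv x hx).1) hb.1)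
  rw [e1, e2, k_1_left _ hu.1, one_mul]

/-- conjugated letters before a commutator letter can be replaced -/
theorem Wl {u : G} (hu : St u) (l1 : List G) : ∀ (p l2 : List G), (∀ x ∈ p, St x) →
    (∀ x ∈ l1, St x) → (∀ x ∈ l2, St x) → p.length + l1.length + l2.length ≤ n →
    φ a (p ++ (l1.map fun x => b * x * b) ++ k u b :: l2) = φ a (p ++ l1 ++ k u b :: l2) := by
  induction l1 with
  | nil => intro p l2 _ _ _ _; simp
  | cons v l1 ih =>
    intro p l2 hp h1 h2 hl
    have hv : St v := h1 v (by simp)
    have h1' : ∀ x ∈ l1, St x := fun x hx => h1 x (List.mem_cons_of_mem _ hx)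
    have hw1 : St (k u b) := St.k H hu.1 hb.1
    have hwv : St (k v b) := St.k H hv.1 hb.1
    rw [List.length_cons] at hl
    obtain ⟨r, hr⟩ : ∃ r, r = (l1.map fun x => b * x * b) ++ k u b :: l2 := ⟨_, rfl⟩
    have hrS : ∀ x ∈ r, St x := by
      intro x hx
      rw [hr] at hx
      rcases List.mem_append.1 hx with hx | hx
      · obtain ⟨y, hy, rfl⟩ := List.mem_map.1 hx
        exact (h1' y hy).cj H hb.1
      · rcases List.mem_cons.1 hx with rfl | hx
        · exact hw1
        · exact h2 x hx
    have hrl : r.length = l1.length + l2.length + 1 := by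
      rw [hr]; simp only [List.length_append, List.length_map, List.length_cons]; omega
    have e0 : p ++ ((v :: l1).map fun x => b * x * b) ++ k u b :: l2 = p ++ (b * v * b) :: r := by
      rw [hr]; simp
    rw [e0, add_l H ha hT hb.1 hv hp hrS (by omega)]
    have e1 : φ a (p ++ k v b :: r) = 1 := by
      have q1 : (p ++ k v b :: r).Perm
          ((p ++ (l1.map fun x => b * x * b) ++ l2) ++ [k v b] ++ [k u b]) := by
        rw [hr]
        simp only [List.append_assoc]
        refine List.Perm.append_left p ?_
        have t1 : ((l1.map fun x => b * x * b) ++ k u b :: l2).Perm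
            (k u b :: ((l1.map fun x => b * x * b) ++ l2)) := List.perm_middle
        have t2 : ((l1.map fun x => b * x * b) ++ (l2 ++ ([k v b] ++ [k u b]))).Perm
            ([k v b] ++ [k u b] ++ ((l1.map fun x => b * x * b) ++ l2)) := by
          rw [← List.append_assoc (l1.map fun x => b * x * b)]
          exact List.perm_append_comm
        exact (List.Perm.cons _ t1).trans t2.symm
      rw [φ_perm H (fun _ h => h) ha hT q1]
      · apply ww H ha hb hT hu hv
        · intro x hx
          rcases List.mem_append.1 hx with hx | hx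
          · rcases List.mem_append.1 hx with hx | hx
            · exact hp x hx
            · obtain ⟨y, hy, rfl⟩ := List.mem_map.1 hx
              exact (h1' y hy).cj H hb.1
          · exact h2 x hx
        · simp only [List.length_append, List.length_map]; omega
      · intro x hx
        rcases List.mem_append.1 hx with hx | hx
        · exact hp x hx
        · rcases List.mem_cons.1 hx with rfl | hx
          · exact hwv
          · exact hrS x hx
      · simp only [List.length_append, List.length_cons]; omega
    rw [e1, one_mul, hr]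
    have := ih (p ++ [v]) l2 (by
      intro x hx
      rcases List.mem_append.1 hx with hx | hx
      · exact hp x hx
      · rw [List.mem_singleton.1 hx]; exact hv) h1' h2 (by
      rw [List.length_append, List.length_singleton]; omega)
    simpa only [List.append_assoc, List.singleton_append, List.cons_append, List.nil_append] using this

end E

/-- the product of the correction terms -/
def T (a b : G) : List G → List G → G
  | _, [] => 1
  | p, u :: l => φ a (p ++ k u b :: l) * T a b (p ++ [u]) l

section F

variable (H : E3 G) {a b : G} (ha : St a) (hb : St b) {n : ℕ} (hT : Th St a n)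
include H ha hb hT

theorem Ea (l : List G) : ∀ p : List G, (∀ x ∈ p, St x) → (∀ x ∈ l, St x) →
    p.length + l.length ≤ n + 1 → φ a (p ++ b :: l) = T a b p l * φ a (p ++ l ++ [b]) := by
  induction l with
  | nil => intro p _ _ _; simp [T]
  | cons u l ih =>
    intro p hp h1 hl
    rw [List.length_cons] at hl
    have hu : St u := h1 u (by simp)
    have h1' : ∀ x ∈ l, St x := fun x hx => h1 x (List.mem_cons_of_mem _ hx)
    rw [mv_l H ha hb hT hu hp h1' (by omega)]
    have := ih (p ++ [u]) (by
      intro x hx
      rcases List.mem_append.1 hx with hx | hx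
      · exact hp x hx
      · rw [List.mem_singleton.1 hx]; exact hu) h1' (by
      rw [List.length_append, List.length_singleton]; omega)
    simp only [List.append_assoc, List.singleton_append, List.cons_append, List.nil_append] at this ⊢
    rw [this]
    simp only [T, mul_assoc, List.append_assoc, List.singleton_append, List.cons_append, List.nil_append]

omit hT in
theorem Tco (l : List G) : ∀ p : List G, (∀ x ∈ p, St x) → (∀ x ∈ l, St x) →
    ∀ x : List G, (∀ y ∈ x, y * y = 1) → Commute (T a b p l) (φ a x) := by
  induction l with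
  | nil => intro p _ _ x _; exact Commute.one_left _
  | cons u l ih =>
    intro p hp h1 x hx
    have hu : St u := h1 u (by simp)
    have h1' : ∀ x ∈ l, St x := fun x hx => h1 x (List.mem_cons_of_mem _ hx)
    refine Commute.mul_left (φφ H ha ?_ hx) (ih _ ?_ h1' x hx)
    · intro y hy
      rcases List.mem_append.1 hy with hy | hy
      · exact (hp y hy).1
      · rcases List.mem_cons.1 hy with rfl | hy
        · exact ik H hu.1 hb.1
        · exact (h1' y hy).1
    · intro x hx
      rcases List.mem_append.1 hx with hx | hx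
      · exact hp x hx
      · rw [List.mem_singleton.1 hx]; exact hu

omit hT in
theorem Tsq (l : List G) : ∀ p : List G, (∀ x ∈ p, St x) → (∀ x ∈ l, St x) →
    T a b p l * T a b p l = 1 := by
  induction l with
  | nil => intro p _ _; exact one_mul 1
  | cons u l ih =>
    intro p hp h1
    have hu : St u := h1 u (by simp)
    have h1' : ∀ x ∈ l, St x := fun x hx => h1 x (List.mem_cons_of_mem _ hx)
    have hp' : ∀ x ∈ p ++ [u], St x := by
      intro x hx
      rcases List.mem_append.1 hx with hx | hx
      · exact hp x hx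
      · rw [List.mem_singleton.1 hx]; exact hu
    have hq : ∀ y ∈ p ++ k u b :: l, y * y = 1 := by
      intro y hy
      rcases List.mem_append.1 hy with hy | hy
      · exact (hp y hy).1
      · rcases List.mem_cons.1 hy with rfl | hy
        · exact ik H hu.1 hb.1
        · exact (h1' y hy).1
    exact im (iφ H ha hq) (ih _ hp' h1') (Tco H ha hb l _ hp' h1' _ hq).symm

theorem Tb (l : List G) : ∀ p : List G, (∀ x ∈ p, St x) → (∀ x ∈ l, St x) →
    p.length + l.length ≤ n + 1 → Commute (T a b p l) b := by
  induction l with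
  | nil => intro p _ _ _; exact Commute.one_left _
  | cons u l ih =>
    intro p hp h1 hl
    rw [List.length_cons] at hl
    have hu : St u := h1 u (by simp)
    have h1' : ∀ x ∈ l, St x := fun x hx => h1 x (List.mem_cons_of_mem _ hx)
    have hp' : ∀ x ∈ p ++ [u], St x := by
      intro x hx
      rcases List.mem_append.1 hx with hx | hx
      · exact hp x hx
      · rw [List.mem_singleton.1 hx]; exact hu
    have hpl : ∀ x ∈ p ++ l, St x := by
      intro x hx
      rcases List.mem_append.1 hx with hx | hx
      · exact hp x hx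
      · exact h1' x hx
    refine Commute.mul_left ?_ (ih _ hp' h1' (by
      rw [List.length_append, List.length_singleton]; omega))
    have hlen : (p ++ l).length ≤ n := by rw [List.length_append]; omega
    have q1 : (p ++ k u b :: l).Perm ((p ++ l) ++ [k u b]) := by
      refine List.perm_middle.trans ?_
      exact (List.perm_append_comm (l₁ := [k u b]) (l₂ := p ++ l))
    rw [φ_perm H (fun _ h => h) ha hT q1, r_l H ha hb hT hu hpl hlen]
    · refine (t0_l H ha hb hT hu.1 hpl hlen).mul_left (kr H (iφ H ha ?_) hb.1)
      intro y hy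
      rcases List.mem_append.1 hy with hy | hy
      · exact (hpl y hy).1
      · rw [List.mem_singleton.1 hy]; exact hu.1
    · intro y hy
      rcases List.mem_append.1 hy with hy | hy
      · exact hp y hy
      · rcases List.mem_cons.1 hy with rfl | hy
        · exact St.k H hu.1 hb.1
        · exact h1' y hy
    · simp only [List.length_append, List.length_cons]; omega

theorem Ec (l : List G) : ∀ p : List G, (∀ x ∈ p, St x) → (∀ x ∈ l, St x) →
    p.length + l.length ≤ n + 1 →
    φ a ((p.map fun x => b * x * b) ++ l.map fun x => b * x * b) =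
      φ a ((p.map fun x => b * x * b) ++ l) * T a b p l := by
  induction l with
  | nil => intro p _ _ _; simp [T]
  | cons u l ih =>
    intro p hp h1 hl
    rw [List.length_cons] at hl
    have hu : St u := h1 u (by simp)
    have h1' : ∀ x ∈ l, St x := fun x hx => h1 x (List.mem_cons_of_mem _ hx)
    have hp' : ∀ x ∈ p ++ [u], St x := by
      intro x hx
      rcases List.mem_append.1 hx with hx | hx
      · exact hp x hx
      · rw [List.mem_singleton.1 hx]; exact hu
    have hpb : ∀ x ∈ (p.map fun x => b * x * b), St x := by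
      intro x hx
      obtain ⟨y, hy, rfl⟩ := List.mem_map.1 hx
      exact (hp y hy).cj H hb.1
    have e1 := ih (p ++ [u]) hp' h1' (by
      rw [List.length_append, List.length_singleton]; omega)
    have e2 : ((p ++ [u]).map fun x => b * x * b) ++ (l.map fun x => b * x * b) =
        (p.map fun x => b * x * b) ++ (u :: l).map fun x => b * x * b := by simp
    have e3 : ((p ++ [u]).map fun x => b * x * b) ++ l =
        (p.map fun x => b * x * b) ++ (b * u * b) :: l := by simp
    rw [e2, e3, add_l H ha hT hb.1 hu hpb h1' (by rw [List.length_map]; omega)] at e1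
    rw [e1]
    have e4 := Wl H ha hb hT hu p [] l (by simp) hp h1' (by simp; omega)
    simp only [List.nil_append] at e4
    rw [e4]
    have q1 : ∀ y ∈ p ++ k u b :: l, y * y = 1 := by
      intro y hy
      rcases List.mem_append.1 hy with hy | hy
      · exact (hp y hy).1
      · rcases List.mem_cons.1 hy with rfl | hy
        · exact ik H hu.1 hb.1
        · exact (h1' y hy).1
    have q2 : ∀ y ∈ (p.map fun x => b * x * b) ++ u :: l, y * y = 1 := by
      intro y hy
      rcases List.mem_append.1 hy with hy | hy
      · exact (hpb y hy).1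
      · exact (h1 y hy).1
    rw [(φφ H ha q1 q2).eq]
    simp only [T, mul_assoc]

/-- the thickness increases -/
theorem thick : Th St (k a b) (n + 1) := by
  intro l' hl' hn'
  -- pad with ones
  obtain ⟨l, hl, hlen, hact⟩ : ∃ l : List G, (∀ x ∈ l, St x) ∧ l.length ≤ n + 1 ∧
      act (k a b) l' = act (k a b) l := ⟨l', hl', hn', rfl⟩
  rw [hact]
  have il : ∀ x ∈ l, x * x = 1 := fun x hx => (hl x hx).1
  have ie := ik H ha.1 hb.1
  apply co_one ie (act_inv ie _ il)
  have ib' := act_inv hb.1 l il
  have hA := act_St H ha l il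
  rw [act_k _ _ _ il, Q4' H ha hA hb.1 ib']
  have t1 : act b l * act a l * act b l = act a (b :: l) := by
    rw [← act_mul _ _ _ il, ← act_mul _ _ _ il]; rfl
  have t2 : ∀ x : G, k (b * a * b) x = b * k a (b * x * b) * b := by
    intro x
    rw [cj_k hb.1, show b * (b * x * b) * b = x by simp only [mul_assoc, cc hb.1, hb.1, mul_one]]
  have t3 : ∀ (m : List G) (x : G), b * act (b * x * b) m * b =
      act x (m.map fun y => b * y * b) := by
    intro m
    induction m with
    | nil =>
      intro x
      show b * (b * x * b) * b = x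
      simp only [mul_assoc, cc hb.1, hb.1, mul_one]
    | cons y m ih =>
      intro x
      show b * act (y * (b * x * b) * y) m * b =
        act (b * y * b * x * (b * y * b)) (m.map fun y => b * y * b)
      rw [← ih]
      congr 3
      simp only [mul_assoc, cc hb.1, hb.1, mul_one]
  rw [t1, t2, t2]
  have t4 : b * act a (b :: l) * b = act a (l.map fun y => b * y * b) := t3 l a
  have t5 : b * act a l * b = act a (l ++ [b]) := by rw [act_append]; rfl
  rw [t4, t5]
  show φ a (b :: l) * φ a l * (b * φ a (l.map fun y => b * y * b) * b * (b * φ a (l ++ [b]) * b)) = 1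
  have e1 := Ea H ha hb hT l [] (by simp) hl (by simpa using hlen)
  have e2 := Ec H ha hb hT l [] (by simp) hl (by simpa using hlen)
  simp only [List.nil_append, List.map_nil] at e1 e2
  have is' := iφ H ha il
  have ilb : ∀ x ∈ l ++ [b], x * x = 1 := by
    intro x hx
    rcases List.mem_append.1 hx with hx | hx
    · exact il x hx
    · rw [List.mem_singleton.1 hx]; exact hb.1
  have iψ := iφ H ha ilb
  have cT := Tb H ha hb hT l [] (by simp) hl (by simpa using hlen)
  have cTs := Tco H ha hb l [] (by simp) hl l il
  have cTψ := Tco H ha hb l [] (by simp) hl _ ilb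
  have iT := Tsq H ha hb l [] (by simp) hl
  have csψ := φφ H ha il ilb
  have e3 := bl_l H ha hb hl
  obtain ⟨t, ht⟩ : ∃ t, t = T a b [] l := ⟨_, rfl⟩
  obtain ⟨s, hs⟩ : ∃ t, t = φ a l := ⟨_, rfl⟩
  obtain ⟨ψ, hψ⟩ : ∃ t, t = φ a (l ++ [b]) := ⟨_, rfl⟩
  rw [← ht] at e1 e2 cT cTs cTψ iT
  rw [← hs] at e2 is' cTs csψ e3 ⊢
  rw [← hψ] at e1 iψ cTψ csψ e3 ⊢
  have iK := ik H is' hb.1
  have cKs : Commute (k s b) s := kl H is' hb.1
  have cKT : Commute (k s b) t := (co_k cTs cT).symm
  have cKψ : Commute ψ (k s b) := by
    have : ψ * k s b * (ψ * k s b) = 1 := by rw [← e3]; exact ic iψ hb.1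
    exact co_of_im iψ iK this
  rw [e1, e2, e3, show b * (s * t) * b = (b * s * b) * (b * t * b) by
    simp only [mul_assoc, cc hb.1], cj_fix hb.1 cT, cj_eq is']
  calc t * ψ * s * (s * k s b * t * (ψ * k s b))
      = t * ψ * (s * s) * k s b * t * (ψ * k s b) := by simp only [mul_assoc]
    _ = t * (ψ * k s b) * t * (ψ * k s b) := by rw [is']; simp only [mul_assoc, one_mul, mul_one]
    _ = t * t * (ψ * k s b * (ψ * k s b)) := by
      have : Commute (ψ * k s b) t := cTψ.symm.mul_left cKT
      rw [mul_assoc t, this.eq]
      simp only [mul_assoc]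
    _ = 1 := by rw [iT, im iψ iK cKψ, one_mul]

end F

end Pool.Agent.W5h59.Bu
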